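import Mathlib

set_option autoImplicit false

open MeasureTheory Set Filter Topology

/-!
# Graphs of generic homeomorphisms of the cube carry a non-σ-finite `H^d`

For every `d ≥ 2` and the generic homeomorphism `f` of `[0,1]^d`, the measure `H^d` is not
σ-finite on the graph of `f`; moreover it is not σ-finite on the part of the graph lying over any
nonempty relatively open subset of the cube.

Proof.  Let `π = pr i j : ℝ^{2d} → ℝ^d` be the projection `(x, y) ↦ x` with the coordinate `x_i`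
replaced by `y_j`.  It does not increase distances, so a set of finite `H^d` measure has finite
fibres over almost every point (`ae_finite_fiber`).  For the generic `f` and almost every `z` the
function `g(t) = f_j(z_1, …, t, …, z_d)` (`t` in place `i`) has this property: whenever `g - z_i`
changes sign between two rationals `p < q` it changes sign twice on a subinterval of length at most
`(q - p) / 2` (`generic_bad`; the dense set is obtained by composing `f` with a rapidly oscillating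
zigzag homeomorphism `zz`).  Hence the level set `{g = z_i}` is uncountable (`uncountable_level`)
for almost every `z` for which there is a crossing at all, and these `z` form a nonempty open set.
-/

namespace Pool.Agent.Results.MP_c4f89b_an.NonSigmaFinite

/-- The cube `[0,1]^d`. -/
abbrev Cube (d : ℕ) : Type := Fin d → unitInterval

/-- The homeomorphisms of the cube `[0,1]^d`, with the topology of uniform convergence (the
topology which the space `C(Cube d, Cube d)` of continuous maps induces on them). -/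
abbrev HomeoCube (d : ℕ) : Type := {f : C(Cube d, Cube d) // IsHomeomorph f}

/-- The ambient space `ℝ^{2d}` with the Euclidean metric. -/
abbrev R2 (d : ℕ) : Type := EuclideanSpace ℝ (Fin d ⊕ Fin d)

/-- The point `(x, y)` of `ℝ^{2d}`, for `x, y ∈ [0,1]^d`. -/
noncomputable def pt {d : ℕ} (x y : Cube d) : R2 d :=
  WithLp.toLp 2 (Sum.elim (fun k => (x k : ℝ)) (fun k => (y k : ℝ)))

/-- The part `{(x, f x) : x ∈ V}` of the graph of `f` lying over `V`. -/
def graphOver {d : ℕ} (f : Cube d → Cube d) (V : Set (Cube d)) : Set (R2 d) :=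
  (fun x => pt x (f x)) '' V

/-! ### Fibres of sets of finite measure -/

theorem ae_finite_fiber {X Y : Type*} [MetricSpace X] [MeasurableSpace X] [BorelSpace X]
    [SecondCountableTopology X] [MeasurableSpace Y] (μ : Measure X) (ν : Measure Y) (π : X → Y)
    (hπ : ∀ S : Set X, ν (π '' S) ≤ μ S) (A : Set X) (hA : μ A < ⊤) :
    ∀ᵐ z ∂ν, (A ∩ π ⁻¹' {z}).Finite := by
  classical
  rcases A.eq_empty_or_nonempty with rfl | ⟨x0, _⟩
  · simp
  have : Nonempty X := ⟨x0⟩
  let U : ℕ → ℕ → Set X := fun k i => Metric.ball (TopologicalSpace.denseSeq X i) (1 / ((k : ℝ) + 1))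
  let D : ℕ → ℕ → Set X := fun k => disjointed (U k)
  have hDm : ∀ k i, MeasurableSet (D k i) := fun k i =>
    MeasurableSet.disjointed (fun n => Metric.isOpen_ball.measurableSet) i
  have hDd : ∀ k, Pairwise (Function.onFun Disjoint (D k)) := fun k => disjoint_disjointed (U k)
  have hDU : ∀ k, ⋃ i, D k i = univ := by
    intro k
    rw [show (⋃ i, D k i) = ⋃ i, U k i from iUnion_disjointed]
    rw [eq_univ_iff_forall]
    intro x
    have hd := TopologicalSpace.denseRange_denseSeq X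
    have hpos : (0 : ℝ) < 1 / ((k : ℝ) + 1) := by positivity
    obtain ⟨i, hi⟩ := hd.exists_dist_lt x hpos
    exact mem_iUnion.2 ⟨i, hi⟩
  let E : ℕ → ℕ → Set Y := fun k i => toMeasurable ν (π '' (A ∩ D k i))
  let F : ℕ → Y → ENNReal := fun k z => ∑' i, (E k i).indicator 1 z
  have hFm : ∀ k, Measurable (F k) := fun k => by
    apply Measurable.tsum
    intro i
    exact measurable_one.indicator (measurableSet_toMeasurable _ _)
  have hFi : ∀ k, ∫⁻ z, F k z ∂ν ≤ μ A := by
    intro k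
    rw [lintegral_tsum (fun i => (measurable_one.indicator (measurableSet_toMeasurable _ _)).aemeasurable)]
    calc ∑' i, ∫⁻ z, (E k i).indicator 1 z ∂ν = ∑' i, ν (π '' (A ∩ D k i)) := by
          congr 1; ext i
          rw [lintegral_indicator_one (measurableSet_toMeasurable _ _), measure_toMeasurable]
      _ ≤ ∑' i, μ (A ∩ D k i) := ENNReal.tsum_le_tsum fun i => hπ _
      _ = ∑' i, (μ.restrict A) (D k i) := by
          congr 1; ext i
          rw [Measure.restrict_apply (hDm k i), inter_comm]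
      _ = (μ.restrict A) (⋃ i, D k i) := (measure_iUnion (hDd k) (hDm k)).symm
      _ = μ A := by rw [hDU, Measure.restrict_apply_univ]
  have hlim : ∫⁻ z, liminf (fun k => F k z) atTop ∂ν ≤ μ A := by
    refine (lintegral_liminf_le hFm).trans ?_
    refine liminf_le_of_frequently_le' ?_
    exact Frequently.of_forall fun k => hFi k
  have hae : ∀ᵐ z ∂ν, liminf (fun k => F k z) atTop < ⊤ := by
    refine ae_lt_top ?_ (hlim.trans_lt hA).ne
    exact Measurable.liminf hFm
  filter_upwards [hae] with z hz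
  by_contra hinf
  have hinf' : (A ∩ π ⁻¹' {z}).Infinite := hinf
  refine hz.ne ?_
  refine ENNReal.eq_top_of_forall_nnreal_le fun c => ?_
  obtain ⟨m, hm⟩ := exists_nat_ge c
  refine le_trans (show (c : ENNReal) ≤ (m : ENNReal) by exact_mod_cast hm) ?_
  obtain ⟨S, hS, hSc⟩ := hinf'.exists_subset_card_eq m
  -- minimal distance
  obtain ⟨r, hr, hrS⟩ : ∃ r : ℝ, 0 < r ∧ ∀ x ∈ S, ∀ y ∈ S, x ≠ y → r ≤ dist x y := by
    have hfin : (S : Set X).Finite := S.finite_toSet
    rcases (S.offDiag).eq_empty_or_nonempty with h | h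
    · refine ⟨1, one_pos, fun x hx y hy hxy => ?_⟩
      exact absurd (show (x, y) ∈ S.offDiag from Finset.mem_offDiag.2 ⟨hx, hy, hxy⟩) (by rw [h]; simp)
    · obtain ⟨p, hp, hpm⟩ := Finset.exists_min_image S.offDiag (fun p => dist p.1 p.2) h
      refine ⟨dist p.1 p.2, dist_pos.2 (Finset.mem_offDiag.1 hp).2.2, fun x hx y hy hxy => ?_⟩
      exact hpm (x, y) (Finset.mem_offDiag.2 ⟨hx, hy, hxy⟩)
  refine le_liminf_of_le (by isBoundedDefault) ?_
  have hk : ∀ᶠ k : ℕ in atTop, 2 * (1 / ((k : ℝ) + 1)) < r := by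
    have h1 : Tendsto (fun k : ℕ => 2 * (1 / ((k : ℝ) + 1))) atTop (𝓝 (2 * 0)) :=
      (tendsto_one_div_add_atTop_nhds_zero_nat).const_mul 2
    rw [mul_zero] at h1
    exact h1.eventually_lt_const hr
  filter_upwards [hk] with k hk
  -- choose the index of each point
  have hix : ∀ x : X, ∃ i, x ∈ D k i := fun x => by
    have : x ∈ ⋃ i, D k i := by rw [hDU]; trivial
    exact mem_iUnion.1 this
  choose ix hix using hix
  have hinj : Set.InjOn ix S := by
    intro x hx y hy hxy
    by_contra hne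
    have h1 : x ∈ U k (ix x) := disjointed_subset _ _ (hix x)
    have h2 : y ∈ U k (ix x) := by rw [hxy]; exact disjointed_subset _ _ (hix y)
    have h3 := hrS x hx y hy hne
    have h4 : dist x y < 2 * (1 / ((k : ℝ) + 1)) := by
      calc dist x y ≤ dist x (TopologicalSpace.denseSeq X (ix x)) + dist y (TopologicalSpace.denseSeq X (ix x)) :=
            dist_triangle_right _ _ _
        _ < 2 * (1 / ((k : ℝ) + 1)) := by
            have := Metric.mem_ball.1 h1
            have := Metric.mem_ball.1 h2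
            linarith
    linarith
  calc (m : ENNReal) = ∑ i ∈ S.image ix, (1 : ENNReal) := by
        rw [Finset.sum_const, Finset.card_image_of_injOn hinj, hSc]; simp
    _ ≤ ∑ i ∈ S.image ix, (E k i).indicator 1 z := by
        refine Finset.sum_le_sum fun i hi => ?_
        obtain ⟨x, hx, rfl⟩ := Finset.mem_image.1 hi
        have hxS := hS hx
        have : z ∈ E k (ix x) := subset_toMeasurable _ _ ⟨x, ⟨hxS.1, hix x⟩, hxS.2⟩
        rw [indicator_of_mem this]; simp
    _ ≤ F k z := ENNReal.sum_le_tsum _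

/-! ### Level sets of functions with many crossings -/

theorem rat_right {O : Set ℝ} (hO : IsOpen O) {u v : ℝ} (hu : u ∈ O) (huv : u < v) :
    ∃ p : ℚ, u < p ∧ (p : ℝ) < v ∧ (p : ℝ) ∈ O := by
  obtain ⟨e, he, hb⟩ := Metric.isOpen_iff.1 hO u hu
  obtain ⟨p, hp1, hp2⟩ := exists_rat_btwn (show u < min (u + e) v from lt_min (by linarith) huv)
  refine ⟨p, hp1, hp2.trans_le (min_le_right _ _), hb ?_⟩
  have := hp2.trans_le (min_le_left _ _)
  rw [Metric.mem_ball, Real.dist_eq, abs_lt]
  constructor <;> linarith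

theorem rat_left {O : Set ℝ} (hO : IsOpen O) {u v : ℝ} (hv : v ∈ O) (huv : u < v) :
    ∃ p : ℚ, u < p ∧ (p : ℝ) < v ∧ (p : ℝ) ∈ O := by
  obtain ⟨e, he, hb⟩ := Metric.isOpen_iff.1 hO v hv
  obtain ⟨p, hp1, hp2⟩ := exists_rat_btwn (show max (v - e) u < v from max_lt (by linarith) huv)
  refine ⟨p, (le_max_right _ _).trans_lt hp1, hp2, hb ?_⟩
  have := (le_max_left _ _).trans_lt hp1
  rw [Metric.mem_ball, Real.dist_eq, abs_lt]
  constructor <;> linarith

/-- a crossing interval contains a rational crossing interval -/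
theorem shrink (g : ℝ → ℝ) (hg : Continuous g) (y u v : ℝ) (huv : u < v)
    (h : (g u - y) * (g v - y) < 0) :
    ∃ p q : ℚ, u < p ∧ (p : ℝ) < q ∧ (q : ℝ) < v ∧ (g p - y) * (g q - y) < 0 := by
  have h1 : IsOpen {x : ℝ | (g x - y) * (g v - y) < 0} :=
    isOpen_lt (by fun_prop) continuous_const
  obtain ⟨p, hp1, hp2, hp3⟩ := rat_right h1 h huv
  have h2 : IsOpen {x : ℝ | (g p - y) * (g x - y) < 0} :=
    isOpen_lt (by fun_prop) continuous_const
  obtain ⟨q, hq1, hq2, hq3⟩ := rat_left h2 hp3 hp2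
  exact ⟨p, q, hp1, hq1, hq2, hq3⟩

theorem uncountable_level (g : ℝ → ℝ) (hg : Continuous g) (y a b : ℝ) (hab : a < b)
    (hcr : (g a - y) * (g b - y) < 0)
    (H : ∀ p q : ℚ, a ≤ p → (p : ℝ) < q → (q : ℝ) ≤ b → (g p - y) * (g q - y) < 0 →
      ∃ t1 t2 t3 : ℝ, (p : ℝ) ≤ t1 ∧ t1 < t2 ∧ t2 < t3 ∧ t3 ≤ q ∧ t3 - t1 ≤ ((q : ℝ) - p) / 2 ∧
        (g t1 - y) * (g t2 - y) < 0 ∧ (g t2 - y) * (g t3 - y) < 0) :
    ¬ {t ∈ Icc a b | g t = y}.Countable := by
  intro hc
  obtain ⟨s, hs⟩ := countable_iff_exists_subset_range.1 hc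
  let σ : Type := {x : ℚ × ℚ // a ≤ x.1 ∧ (x.1 : ℝ) < x.2 ∧ (x.2 : ℝ) ≤ b ∧
    (g x.1 - y) * (g x.2 - y) < 0}
  have step : ∀ (n : ℕ) (x : σ), ∃ x' : σ, (x.1.1 : ℝ) ≤ x'.1.1 ∧ (x'.1.2 : ℝ) ≤ x.1.2 ∧
      (x'.1.2 : ℝ) - x'.1.1 ≤ ((x.1.2 : ℝ) - x.1.1) / 2 ∧
      (g (s n) = y → s n ∉ Icc (x'.1.1 : ℝ) x'.1.2) := by
    rintro n ⟨⟨p, q⟩, h1, h2, h3, h4⟩
    obtain ⟨t1, t2, t3, ht1, ht12, ht23, ht3, hl, hA, hB⟩ := H p q h1 h2 h3 h4
    dsimp only at *
    by_cases hsn : s n < t2
    · obtain ⟨p', q', k1, k2, k3, k4⟩ := shrink g hg y t2 t3 ht23 hB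
      exact ⟨⟨(p', q'), by dsimp only; linarith, k2, by dsimp only; linarith, k4⟩,
        by dsimp only; linarith, by dsimp only; linarith, by dsimp only; linarith,
        fun _ hmem => by have := hmem.1; dsimp only at this; linarith⟩
    · obtain ⟨p', q', k1, k2, k3, k4⟩ := shrink g hg y t1 t2 ht12 hA
      exact ⟨⟨(p', q'), by dsimp only; linarith, k2, by dsimp only; linarith, k4⟩,
        by dsimp only; linarith, by dsimp only; linarith, by dsimp only; linarith,
        fun _ hmem => by have := hmem.2; dsimp only at this; linarith⟩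
  choose F hF1 hF2 hF3 hF4 using step
  obtain ⟨p0, q0, k1, k2, k3, k4⟩ := shrink g hg y a b hab hcr
  let x0 : σ := ⟨(p0, q0), k1.le, k2, k3.le, k4⟩
  let X : ℕ → σ := fun n => Nat.rec x0 (fun n x => F n x) n
  have hX : ∀ n, X (n + 1) = F n (X n) := fun n => rfl
  have hlen : ∀ n, ((X n).1.2 : ℝ) - (X n).1.1 ≤ (b - a) / 2 ^ n := by
    intro n
    induction n with
    | zero =>
      have : ((X 0).1.2 : ℝ) - (X 0).1.1 = q0 - p0 := rfl
      rw [this]; simp; linarith
    | succ n ih =>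
      have := hF3 n (X n)
      rw [← hX] at this
      calc _ ≤ _ := this
        _ ≤ (b - a) / 2 ^ n / 2 := by linarith
        _ = _ := by rw [pow_succ]; field_simp
  have hmono : Monotone fun n => ((X n).1.1 : ℝ) :=
    monotone_nat_of_le_succ fun n => by
      have := hF1 n (X n); rw [← hX] at this; exact this
  have hanti : Antitone fun n => ((X n).1.2 : ℝ) :=
    antitone_nat_of_succ_le fun n => by
      have := hF2 n (X n); rw [← hX] at this; exact this
  have hle : ∀ n, ((X n).1.1 : ℝ) ≤ (X n).1.2 := fun n => (X n).2.2.1.le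
  set L : ℝ := ⨆ n, ((X n).1.1 : ℝ) with hLdef
  have hL : L ∈ ⋂ n, Icc ((X n).1.1 : ℝ) (X n).1.2 :=
    Monotone.ciSup_mem_iInter_Icc_of_antitone hmono hanti hle
  have hL' : ∀ n, L ∈ Icc ((X n).1.1 : ℝ) (X n).1.2 := fun n => mem_iInter.1 hL n
  have hz : Tendsto (fun n : ℕ => (b - a) / 2 ^ n) atTop (𝓝 0) := by
    have := (tendsto_pow_atTop_nhds_zero_of_lt_one (show (0:ℝ) ≤ 1/2 by norm_num)
      (by norm_num)).const_mul (b - a)
    simpa [div_eq_mul_inv] using this
  have hlimp : Tendsto (fun n => ((X n).1.1 : ℝ)) atTop (𝓝 L) := by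
    have h0 : Tendsto (fun n : ℕ => L - (b - a) / 2 ^ n) atTop (𝓝 L) := by
      simpa using hz.const_sub L
    refine tendsto_of_tendsto_of_tendsto_of_le_of_le h0 tendsto_const_nhds ?_ ?_
    · intro n; have := hlen n; have := (hL' n).2; dsimp only; linarith
    · intro n; exact (hL' n).1
  have hlimq : Tendsto (fun n => ((X n).1.2 : ℝ)) atTop (𝓝 L) := by
    have h0 : Tendsto (fun n : ℕ => L + (b - a) / 2 ^ n) atTop (𝓝 L) := by
      simpa using hz.const_add L
    refine tendsto_of_tendsto_of_tendsto_of_le_of_le tendsto_const_nhds h0 ?_ ?_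
    · intro n; exact (hL' n).2
    · intro n; have := hlen n; have := (hL' n).1; dsimp only; linarith
  have hprod : Tendsto (fun n => (g (X n).1.1 - y) * (g (X n).1.2 - y)) atTop
      (𝓝 ((g L - y) * (g L - y))) :=
    (((hg.tendsto L).comp hlimp).sub_const y).mul (((hg.tendsto L).comp hlimq).sub_const y)
  have hle0 : (g L - y) * (g L - y) ≤ 0 :=
    le_of_tendsto hprod (Eventually.of_forall fun n => (X n).2.2.2.2.le)
  have hgL : g L = y := by nlinarith [mul_self_nonneg (g L - y)]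
  have hLab : L ∈ Icc a b := ⟨(X 0).2.1.trans (hL' 0).1, (hL' 0).2.trans (X 0).2.2.2.1⟩
  obtain ⟨n, hn⟩ := hs ⟨hLab, hgL⟩
  have h1 := hF4 n (X n) (by rw [hn]; exact hgL)
  rw [← hX, hn] at h1
  exact h1 (hL' (n + 1))

/-! ### The bad sets -/

noncomputable def cl {d : ℕ} (z : Fin d → ℝ) : Cube d := fun i => projIcc 0 1 zero_le_one (z i)

noncomputable def G {d : ℕ} (f : C(Cube d, Cube d)) (i j : Fin d) (z : Fin d → ℝ) (t : ℝ) : ℝ :=
  (f (Function.update (cl z) i (projIcc 0 1 zero_le_one t)) j : ℝ)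

variable {d : ℕ}

theorem continuous_cl : Continuous (cl : (Fin d → ℝ) → Cube d) :=
  continuous_pi fun i => continuous_projIcc.comp (continuous_apply i)

theorem continuous_G (i j : Fin d) :
    Continuous fun p : C(Cube d, Cube d) × (Fin d → ℝ) × ℝ => G p.1 i j p.2.1 p.2.2 := by
  unfold G
  have h1 : Continuous fun p : C(Cube d, Cube d) × (Fin d → ℝ) × ℝ =>
      (p.1 (Function.update (cl p.2.1) i (projIcc 0 1 zero_le_one p.2.2))) := by
    refine Continuous.eval continuous_fst ?_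
    exact (continuous_cl.comp (continuous_fst.comp continuous_snd)).update i
      (continuous_projIcc.comp (continuous_snd.comp continuous_snd))
  exact continuous_subtype_val.comp ((continuous_apply j).comp h1)

theorem G_update (f : C(Cube d, Cube d)) (i j : Fin d) (z : Fin d → ℝ) (s t : ℝ) :
    G f i j (Function.update z i s) t = G f i j z t := by
  unfold G
  congr 2
  have : Function.update (cl (Function.update z i s)) i (projIcc 0 1 zero_le_one t) =
      Function.update (cl z) i (projIcc 0 1 zero_le_one t) := by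
    ext k
    by_cases hk : k = i
    · subst hk; simp
    · simp [Function.update_of_ne hk, cl]
  rw [this]

/-- crossing -/
def Cr (f : C(Cube d, Cube d)) (i j : Fin d) (z : Fin d → ℝ) (s t : ℝ) : Prop :=
  (G f i j z s - z i) * (G f i j z t - z i) < 0

theorem isOpen_Cr (i j : Fin d) (s t : ℝ) :
    IsOpen {p : C(Cube d, Cube d) × (Fin d → ℝ) | Cr p.1 i j p.2 s t} := by
  unfold Cr
  have h : ∀ s : ℝ, Continuous fun p : C(Cube d, Cube d) × (Fin d → ℝ) => G p.1 i j p.2 s :=
    fun s => (continuous_G i j).comp (continuous_fst.prodMk (continuous_snd.prodMk continuous_const))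
  have h2 : Continuous fun p : C(Cube d, Cube d) × (Fin d → ℝ) => p.2 i :=
    (continuous_apply i).comp continuous_snd
  exact isOpen_lt (((h s).sub h2).mul ((h t).sub h2)) continuous_const

/-- bad parameters -/
def bad (f : C(Cube d, Cube d)) (i j : Fin d) (a b : ℝ) : Set (Fin d → ℝ) :=
  {z | z ∈ Icc (0 : Fin d → ℝ) 1 ∧ (G f i j z a - z i) * (G f i j z b - z i) ≤ 0 ∧
    ∀ t1 t2 t3 : ℝ, a ≤ t1 → t1 < t2 → t2 < t3 → t3 ≤ b → t3 - t1 ≤ (b - a) / 2 →
      ¬ (Cr f i j z t1 t2 ∧ Cr f i j z t2 t3)}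

theorem isClosed_bad' (i j : Fin d) (a b : ℝ) :
    IsClosed {p : C(Cube d, Cube d) × (Fin d → ℝ) | p.2 ∈ bad p.1 i j a b} := by
  have h : ∀ s : ℝ, Continuous fun p : C(Cube d, Cube d) × (Fin d → ℝ) => G p.1 i j p.2 s :=
    fun s => (continuous_G i j).comp (continuous_fst.prodMk (continuous_snd.prodMk continuous_const))
  have h2 : Continuous fun p : C(Cube d, Cube d) × (Fin d → ℝ) => p.2 i :=
    (continuous_apply i).comp continuous_snd
  have e : {p : C(Cube d, Cube d) × (Fin d → ℝ) | p.2 ∈ bad p.1 i j a b} =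
      {p | p.2 ∈ Icc (0 : Fin d → ℝ) 1} ∩
      ({p | (G p.1 i j p.2 a - p.2 i) * (G p.1 i j p.2 b - p.2 i) ≤ 0} ∩
      ⋂ (t1 : ℝ) (t2 : ℝ) (t3 : ℝ) (_ : a ≤ t1) (_ : t1 < t2) (_ : t2 < t3) (_ : t3 ≤ b)
        (_ : t3 - t1 ≤ (b - a) / 2), ({p | Cr p.1 i j p.2 t1 t2} ∩ {p | Cr p.1 i j p.2 t2 t3})ᶜ) := by
    ext p
    simp only [bad, mem_setOf_eq, mem_inter_iff, mem_iInter, mem_compl_iff]
  rw [e]
  refine (isClosed_Icc.preimage continuous_snd).inter ((isClosed_le ?_ continuous_const).inter ?_)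
  · exact ((h a).sub h2).mul ((h b).sub h2)
  · refine isClosed_iInter fun t1 => isClosed_iInter fun t2 => isClosed_iInter fun t3 =>
      isClosed_iInter fun _ => isClosed_iInter fun _ => isClosed_iInter fun _ =>
      isClosed_iInter fun _ => isClosed_iInter fun _ => ?_
    exact ((isOpen_Cr i j t1 t2).inter (isOpen_Cr i j t2 t3)).isClosed_compl

theorem isClosed_bad (f : C(Cube d, Cube d)) (i j : Fin d) (a b : ℝ) : IsClosed (bad f i j a b) :=
  (isClosed_bad' i j a b).preimage (Continuous.prodMk_right f)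

theorem bad_subset (f : C(Cube d, Cube d)) (i j : Fin d) (a b : ℝ) :
    bad f i j a b ⊆ Icc (0 : Fin d → ℝ) 1 := fun _ h => h.1

theorem isOpen_small (i j : Fin d) (a b : ℝ) (ε : ENNReal) :
    IsOpen {f : C(Cube d, Cube d) | volume (bad f i j a b) < ε} := by
  rw [isOpen_iff_mem_nhds]
  intro f0 hf0
  obtain ⟨V, hV, hVo, hVm⟩ := Set.exists_isOpen_lt_of_lt (bad f0 i j a b) ε hf0
  have hK : IsCompact (Icc (0 : Fin d → ℝ) 1 \ V) := isCompact_Icc.diff hVo
  have := hK.eventually_forall_of_forall_eventually (x₀ := f0)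
    (P := fun f z => z ∉ bad f i j a b) (by
      intro z hz
      exact (isClosed_bad' i j a b).isOpen_compl.mem_nhds (fun h => hz.2 (hV h)))
  filter_upwards [this] with f hf
  refine lt_of_le_of_lt (measure_mono ?_) hVm
  intro z hz
  by_contra hzV
  exact hf z ⟨hz.1, hzV⟩ hz

/-- graphs are null sets -/
theorem null_graph (F : (Fin d → ℝ) → ℝ) (hF : Continuous F) (i : Fin d)
    (hi : ∀ z s, F (Function.update z i s) = F z) : volume {z : Fin d → ℝ | z i = F z} = 0 := by
  refine Measure.addHaar_eq_zero_of_disjoint_translates (volume : Measure (Fin d → ℝ))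
    (u := fun n : ℕ => Pi.single i (1 / ((n : ℝ) + 1))) ?_ ?_ ?_
  · rw [isBounded_iff_forall_norm_le]
    refine ⟨1, ?_⟩
    rintro x ⟨n, rfl⟩
    rw [Pi.norm_single, Real.norm_of_nonneg (by positivity)]
    rw [div_le_one (by positivity)]
    have : (0:ℝ) ≤ n := n.cast_nonneg
    linarith
  · intro m n hmn
    rw [Function.onFun, Set.disjoint_left]
    rintro x ⟨u, hu, v, hv, rfl⟩ ⟨u', hu', w, hw, h⟩
    simp only [mem_singleton_iff] at hu hu'
    subst hu hu'
    simp only [mem_setOf_eq] at hv hw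
    have e1 : ∀ k, k ≠ i → v k = w k := by
      intro k hk
      have := congrFun h k
      simp only [Pi.add_apply, Pi.single_eq_of_ne hk, zero_add] at this
      exact this.symm
    have e2 : F v = F w := by
      have : w = Function.update v i (w i) := by
        ext k
        by_cases hk : k = i
        · subst hk; simp
        · rw [Function.update_of_ne hk, e1 k hk]
      rw [this, hi]
    have e3 := congrFun h i
    simp only [Pi.add_apply, Pi.single_eq_same] at e3
    have e4 : (1 : ℝ) / ((m : ℝ) + 1) = 1 / ((n : ℝ) + 1) := by linarith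
    have e5 : (m : ℝ) = n := by
      have hm : ((m : ℝ) + 1) ≠ 0 := by positivity
      have hn : ((n : ℝ) + 1) ≠ 0 := by positivity
      field_simp at e4
      linarith
    exact hmn (by exact_mod_cast e5)
  · exact (isClosed_eq (continuous_apply i) hF).measurableSet

/-! ### The zigzag homeomorphisms -/

/-- the one dimensional profile -/
structure Prof (u : ℝ → ℝ) : Prop where
  lip : ∀ s t, |u s - u t| ≤ |s - t|
  zero : u 0 = 0
  one : u 1 = 0

theorem Prof.cont {u : ℝ → ℝ} (hu : Prof u) : Continuous u := by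
  have : LipschitzWith 1 u := LipschitzWith.of_dist_le_mul fun s t => by
    simpa [Real.dist_eq] using hu.lip s t
  exact this.continuous

theorem Prof.le {u : ℝ → ℝ} (hu : Prof u) {t : ℝ} (ht : t ∈ Icc (0:ℝ) 1) :
    |u t| ≤ t ∧ |u t| ≤ 1 - t := by
  have h0 := hu.lip t 0
  have h1 := hu.lip t 1
  rw [hu.zero, sub_zero, sub_zero, abs_of_nonneg ht.1] at h0
  rw [hu.one, sub_zero, abs_sub_comm, abs_of_nonneg (show (0:ℝ) ≤ 1 - t by linarith [ht.2])] at h1
  exact ⟨h0, h1⟩

theorem Prof.mem {u : ℝ → ℝ} (hu : Prof u) {t q : ℝ} (ht : t ∈ Icc (0:ℝ) 1) (hq : |q| ≤ 1 / 2) :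
    t + q * u t ∈ Icc (0:ℝ) 1 := by
  obtain ⟨h1, h2⟩ := hu.le ht
  have h3 : |q * u t| ≤ 1 / 2 * |u t| := by
    rw [abs_mul]; exact mul_le_mul_of_nonneg_right hq (abs_nonneg _)
  have h4 := abs_le.1 h3
  have h5 := abs_nonneg (u t)
  constructor <;> linarith [h4.1, h4.2]

/-- shear of the cube in the direction `i` -/
noncomputable def sh (i : Fin d) (q : Cube d → ℝ) (u : ℝ → ℝ) (x : Cube d) : Cube d :=
  Function.update x i (projIcc 0 1 zero_le_one ((x i : ℝ) + q x * u (x i)))

theorem sh_apply_ne {i k : Fin d} (hk : k ≠ i) (q : Cube d → ℝ) (u : ℝ → ℝ) (x : Cube d) :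
    sh i q u x k = x k := by
  rw [sh, Function.update_of_ne hk]

theorem sh_apply_self (i : Fin d) (q : Cube d → ℝ) (u : ℝ → ℝ) (hu : Prof u)
    (hq : ∀ x, |q x| ≤ 1 / 2) (x : Cube d) :
    ((sh i q u x i : unitInterval) : ℝ) = (x i : ℝ) + q x * u (x i) := by
  rw [sh, Function.update_self]
  rw [projIcc_of_mem _ (hu.mem (x i).2 (hq x))]

theorem sh_continuous (i : Fin d) (q : Cube d → ℝ) (u : ℝ → ℝ) (hu : Prof u)
    (hq : Continuous q) : Continuous (sh i q u) := by
  unfold sh
  refine continuous_id.update i (continuous_projIcc.comp ?_)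
  have h1 : Continuous fun x : Cube d => (x i : ℝ) := continuous_subtype_val.comp (continuous_apply i)
  exact h1.add (hq.mul (hu.cont.comp h1))

theorem sh_bijective (i : Fin d) (q : Cube d → ℝ) (u : ℝ → ℝ) (hu : Prof u)
    (hq : ∀ x, |q x| ≤ 1 / 2) (hi : ∀ x t, q (Function.update x i t) = q x) :
    Function.Bijective (sh i q u) := by
  constructor
  · intro x y hxy
    have h1 : ∀ k, k ≠ i → x k = y k := by
      intro k hk
      have := congrFun hxy k
      rwa [sh_apply_ne hk, sh_apply_ne hk] at this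
    have h2 : y = Function.update x i (y i) := by
      ext k
      by_cases hk : k = i
      · subst hk; simp
      · rw [Function.update_of_ne hk, h1 k hk]
    have h3 : q y = q x := by rw [h2, hi]
    have h4 := congrArg (Subtype.val) (congrFun hxy i)
    rw [sh_apply_self i q u hu hq, sh_apply_self i q u hu hq, h3] at h4
    have h5 : |(x i : ℝ) - y i| ≤ 1 / 2 * |(x i : ℝ) - y i| := by
      calc |(x i : ℝ) - y i| = |q x * (u (y i) - u (x i))| := by
            congr 1; linarith
        _ = |q x| * |u (y i) - u (x i)| := abs_mul _ _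
        _ ≤ 1 / 2 * |(y i : ℝ) - x i| :=
            mul_le_mul (hq x) (hu.lip _ _) (abs_nonneg _) (by norm_num)
        _ = _ := by rw [abs_sub_comm]
    have h6 : |(x i : ℝ) - y i| = 0 := by
      have := abs_nonneg ((x i : ℝ) - y i)
      linarith
    have h7 : x i = y i := Subtype.ext (by linarith [abs_eq_zero.1 h6])
    rw [h2, ← h7]; simp
  · intro y
    have hc : ContinuousOn (fun t : ℝ => t + q y * u t) (Icc 0 1) :=
      (continuous_id.add (continuous_const.mul hu.cont)).continuousOn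
    have := intermediate_value_Icc zero_le_one hc
    have hy : (y i : ℝ) ∈ Icc ((0:ℝ) + q y * u 0) (1 + q y * u 1) := by
      rw [hu.zero, hu.one]; simpa using (y i).2
    obtain ⟨t, ht, hty⟩ := this hy
    refine ⟨Function.update y i ⟨t, ht⟩, ?_⟩
    ext k
    by_cases hk : k = i
    · subst hk
      rw [sh_apply_self k q u hu hq, hi]
      simpa using hty
    · rw [sh_apply_ne hk, Function.update_of_ne hk]

theorem dist_sh_le (i : Fin d) (q : Cube d → ℝ) (u : ℝ → ℝ) (hu : Prof u)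
    (hq : ∀ x, |q x| ≤ 1 / 2) (r : ℝ) (hr : 0 ≤ r) (hqu : ∀ x : Cube d, |q x * u (x i)| ≤ r)
    (x : Cube d) : dist (sh i q u x) x ≤ r := by
  rw [dist_pi_le_iff hr]
  intro k
  by_cases hk : k = i
  · subst hk
    rw [Subtype.dist_eq, sh_apply_self k q u hu hq, Real.dist_eq]
    simpa only [add_sub_cancel_left] using hqu x
  · rw [sh_apply_ne hk, dist_self]; exact hr

/-- the two profiles -/
noncomputable def b1 (t : ℝ) : ℝ := min t (1 - t)
noncomputable def bA (A : ℝ) (t : ℝ) : ℝ := min A (b1 t)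

theorem b1_lip (s t : ℝ) : |b1 s - b1 t| ≤ |s - t| := by
  unfold b1
  refine (abs_min_sub_min_le_max _ _ _ _).trans ?_
  rw [show (1 - s - (1 - t)) = t - s by ring, abs_sub_comm t s, max_self]

theorem prof_b1 : Prof b1 := ⟨b1_lip, by simp [b1], by simp [b1]⟩

theorem prof_bA {A : ℝ} (hA : 0 ≤ A) : Prof (bA A) := by
  refine ⟨fun s t => ?_, ?_, ?_⟩
  · unfold bA
    refine (abs_min_sub_min_le_max _ _ _ _).trans ?_
    rw [sub_self, abs_zero]
    exact max_le (abs_nonneg _) (b1_lip s t)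
  · simp [bA, b1, hA]
  · simp [bA, b1, hA]

theorem b1_nonneg {t : ℝ} (ht : t ∈ Icc (0:ℝ) 1) : 0 ≤ b1 t :=
  le_min ht.1 (by linarith [ht.2])

theorem b1_le_one {t : ℝ} (ht : t ∈ Icc (0:ℝ) 1) : b1 t ≤ 1 := (min_le_left _ _).trans ht.2

theorem bA_nonneg {A t : ℝ} (hA : 0 ≤ A) (ht : t ∈ Icc (0:ℝ) 1) : 0 ≤ bA A t :=
  le_min hA (b1_nonneg ht)

theorem bA_le {A t : ℝ} : bA A t ≤ A := min_le_left _ _

/-- the zigzag homeomorphism -/
noncomputable def zz (i k : Fin d) (A ε : ℝ) (x : Cube d) : Cube d :=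
  sh i (fun x => Real.cos ((x k : ℝ) / ε ^ 2) / 2) (bA A) (sh k (fun x => ε * x i) b1 x)

theorem q1_le (k : Fin d) (ε : ℝ) (x : Cube d) : |Real.cos ((x k : ℝ) / ε ^ 2) / 2| ≤ 1 / 2 := by
  rw [abs_div, abs_two]
  have := Real.abs_cos_le_one ((x k : ℝ) / ε ^ 2)
  linarith

theorem q2_le (i : Fin d) {ε : ℝ} (hε : 0 < ε) (hε' : ε ≤ 1 / 2) (x : Cube d) :
    |ε * (x i : ℝ)| ≤ 1 / 2 := by
  have h1 := (x i).2.1
  have h2 := (x i).2.2
  rw [abs_of_nonneg (by positivity)]
  nlinarith

theorem zz_continuous (i k : Fin d) {A ε : ℝ} (hA : 0 ≤ A) : Continuous (zz (d := d) i k A ε) := by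
  have hc : ∀ k : Fin d, Continuous fun x : Cube d => (x k : ℝ) :=
    fun k => continuous_subtype_val.comp (continuous_apply k)
  refine (sh_continuous i _ _ (prof_bA hA) ?_).comp (sh_continuous k _ _ prof_b1 ?_)
  · exact (Real.continuous_cos.comp ((hc k).div_const _)).div_const _
  · exact continuous_const.mul (hc i)

theorem zz_bijective {i k : Fin d} (hik : k ≠ i) {A ε : ℝ} (hA : 0 ≤ A) (hε : 0 < ε)
    (hε' : ε ≤ 1 / 2) : Function.Bijective (zz (d := d) i k A ε) := by
  refine (sh_bijective i _ _ (prof_bA hA) (q1_le k ε) ?_).comp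
    (sh_bijective k _ _ prof_b1 (q2_le i hε hε') ?_)
  · intro x t
    simp only [Function.update_of_ne hik]
  · intro x t
    simp only [Function.update_of_ne hik.symm]

theorem dist_zz_le (i k : Fin d) {A ε : ℝ} (hA : 0 ≤ A) (hε : 0 < ε)
    (hε' : ε ≤ 1 / 2) (x : Cube d) : dist (zz i k A ε x) x ≤ A + ε := by
  have h1 : dist (sh k (fun x => ε * (x i : ℝ)) b1 x) x ≤ ε := by
    refine dist_sh_le k _ _ prof_b1 (q2_le i hε hε') ε hε.le ?_ x
    intro y
    have ha := (y i).2
    have hb := b1_nonneg (y k).2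
    have hb' := b1_le_one (y k).2
    rw [abs_of_nonneg (by have := ha.1; positivity)]
    have : (y i : ℝ) * b1 (y k) ≤ 1 := mul_le_one₀ ha.2 hb hb'
    nlinarith
  have h2 : dist (zz i k A ε x) (sh k (fun x => ε * (x i : ℝ)) b1 x) ≤ A := by
    refine dist_sh_le i _ _ (prof_bA hA) (q1_le k ε) A hA ?_ _
    intro y
    have hb := bA_nonneg hA (y i).2
    have hb' : bA A (y i) ≤ A := bA_le
    rw [abs_mul, abs_of_nonneg hb]
    have := q1_le k ε y
    have h0 := abs_nonneg (Real.cos ((y k : ℝ) / ε ^ 2) / 2)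
    nlinarith
  exact (dist_triangle _ _ _).trans (by linarith)

theorem G_zz (f : C(Cube d, Cube d)) {i k : Fin d} (hik : k ≠ i) (j : Fin d) {A ε : ℝ} (hA : 0 ≤ A)
    (hε : 0 < ε) (hε' : ε ≤ 1 / 2) {z : Fin d → ℝ} (hz : z ∈ Icc (0 : Fin d → ℝ) 1) {t : ℝ}
    (ht : t ∈ Icc (0:ℝ) 1) :
    G (f.comp ⟨zz i k A ε, zz_continuous i k hA⟩) i j z t =
      G f i j (Function.update z k (z k + ε * t * b1 (z k)))
        (t + Real.cos ((z k + ε * t * b1 (z k)) / ε ^ 2) / 2 * bA A t) := by
  unfold G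
  have hzk : z k ∈ Icc (0:ℝ) 1 := ⟨hz.1 k, hz.2 k⟩
  set x : Cube d := Function.update (cl z) i (projIcc 0 1 zero_le_one t) with hx
  have hxi : (x i : ℝ) = t := by
    rw [hx, Function.update_self, projIcc_of_mem _ ht]
  have hxk : (x k : ℝ) = z k := by
    rw [hx, Function.update_of_ne hik, cl, projIcc_of_mem _ hzk]
  have e : zz i k A ε x = Function.update (cl (Function.update z k (z k + ε * t * b1 (z k)))) i
      (projIcc 0 1 zero_le_one
        (t + Real.cos ((z k + ε * t * b1 (z k)) / ε ^ 2) / 2 * bA A t)) := by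
    set y := sh k (fun x => ε * (x i : ℝ)) b1 x with hy
    have hyk : (y k : ℝ) = z k + ε * t * b1 (z k) := by
      rw [hy, sh_apply_self k _ _ prof_b1 (q2_le i hε hε'), hxk, hxi]
    have hyi : (y i : ℝ) = t := by
      rw [hy, sh_apply_ne hik.symm, hxi]
    have hm : z k + ε * t * b1 (z k) ∈ Icc (0:ℝ) 1 := by rw [← hyk]; exact (y k).2
    ext m
    by_cases hm1 : m = i
    · subst hm1
      rw [Function.update_self, zz, ← hy, sh, Function.update_self, hyk, hyi]
    · rw [zz, ← hy, sh_apply_ne hm1, Function.update_of_ne hm1]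
      by_cases hm2 : m = k
      · subst hm2
        rw [hyk, cl, Function.update_self, projIcc_of_mem _ hm]
      · rw [hy, sh_apply_ne hm2, cl, Function.update_of_ne hm2, hx, Function.update_of_ne hm1, cl]
  rw [← e]
  rfl

/-- times at which the zigzag is at its extreme positions -/
theorem extreme_times (φ ω w : ℝ) (hω : 0 < ω) :
    ∃ t1 : ℝ, w ≤ t1 ∧ t1 + 2 * Real.pi / ω ≤ w + 4 * Real.pi / ω ∧
      Real.cos (φ + t1 * ω) = -1 ∧ Real.cos (φ + (t1 + Real.pi / ω) * ω) = 1 ∧
      Real.cos (φ + (t1 + 2 * Real.pi / ω) * ω) = -1 := by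
  have hpi := Real.pi_pos
  set N : ℤ := ⌈(φ + w * ω - Real.pi) / (2 * Real.pi)⌉ with hN
  have h1 : (φ + w * ω - Real.pi) / (2 * Real.pi) ≤ N := Int.le_ceil _
  have h2 : (N : ℝ) < (φ + w * ω - Real.pi) / (2 * Real.pi) + 1 := Int.ceil_lt_add_one _
  rw [div_le_iff₀ (by positivity)] at h1
  have h3 : (N : ℝ) * (2 * Real.pi) < φ + w * ω - Real.pi + 2 * Real.pi := by
    have := mul_lt_mul_of_pos_right h2 (show (0:ℝ) < 2 * Real.pi by positivity)
    rwa [add_mul, div_mul_cancel₀ _ (by positivity), one_mul] at this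
  refine ⟨(Real.pi + N * (2 * Real.pi) - φ) / ω, ?_, ?_, ?_, ?_, ?_⟩
  · rw [le_div_iff₀ hω]; linarith
  · rw [← add_div, ← sub_nonneg]
    have : w + 4 * Real.pi / ω - (Real.pi + N * (2 * Real.pi) - φ + 2 * Real.pi) / ω =
      (φ + w * ω - Real.pi + 2 * Real.pi - N * (2 * Real.pi)) / ω := by field_simp; ring
    rw [this]
    exact div_nonneg (by linarith) hω.le
  · rw [div_mul_cancel₀ _ hω.ne', show φ + (Real.pi + N * (2 * Real.pi) - φ) =
      Real.pi + N * (2 * Real.pi) by ring, Real.cos_add_int_mul_two_pi, Real.cos_pi]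
  · rw [← add_div, div_mul_cancel₀ _ hω.ne', show φ + (Real.pi + N * (2 * Real.pi) - φ + Real.pi) =
      2 * Real.pi + N * (2 * Real.pi) by ring, Real.cos_add_int_mul_two_pi, Real.cos_two_pi]
  · rw [← add_div, div_mul_cancel₀ _ hω.ne',
      show φ + (Real.pi + N * (2 * Real.pi) - φ + 2 * Real.pi) =
      (Real.pi + N * (2 * Real.pi)) + 2 * Real.pi by ring, Real.cos_add_two_pi,
      Real.cos_add_int_mul_two_pi, Real.cos_pi]

/-- good parameters, same sign -/
def GP (f : C(Cube d, Cube d)) (i j : Fin d) (a b A : ℝ) : Set (Fin d → ℝ) :=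
  {z | (∀ s ∈ Icc (a - A) (a + A), 0 < G f i j z s - z i) ∧
    (∀ s ∈ Icc (b - A) (b + A), 0 < G f i j z s - z i)}

def GN (f : C(Cube d, Cube d)) (i j : Fin d) (a b A : ℝ) : Set (Fin d → ℝ) :=
  {z | (∀ s ∈ Icc (a - A) (a + A), G f i j z s - z i < 0) ∧
    (∀ s ∈ Icc (b - A) (b + A), G f i j z s - z i < 0)}

/-- good parameters, crossing -/
def GX (f : C(Cube d, Cube d)) (i j : Fin d) (a b A : ℝ) : Set (Fin d → ℝ) :=
  {z | ∃ s1 s2 : ℝ, a + 2 * A ≤ s1 ∧ s1 < s2 ∧ s2 ≤ b - 2 * A ∧ s2 - s1 < A / 8 ∧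
    Cr f i j z s1 s2}

theorem continuous_Gs (f : C(Cube d, Cube d)) (i j : Fin d) (s : ℝ) :
    Continuous fun z : Fin d → ℝ => G f i j z s :=
  (continuous_G i j).comp (continuous_const.prodMk (continuous_id.prodMk continuous_const))

theorem isOpen_forall_lt {F : (Fin d → ℝ) × ℝ → ℝ} (hF : Continuous F) {K : Set ℝ}
    (hK : IsCompact K) : IsOpen {z : Fin d → ℝ | ∀ s ∈ K, 0 < F (z, s)} := by
  rw [isOpen_iff_mem_nhds]
  intro z hz
  exact hK.eventually_forall_of_forall_eventually (x₀ := z) (P := fun z s => 0 < F (z, s))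
    fun s hs => (isOpen_lt continuous_const hF).mem_nhds (hz s hs)

theorem continuous_Gz (f : C(Cube d, Cube d)) (i j : Fin d) :
    Continuous fun p : (Fin d → ℝ) × ℝ => G f i j p.1 p.2 - p.1 i :=
  ((continuous_G i j).comp (continuous_const.prodMk (continuous_fst.prodMk continuous_snd))).sub
    ((continuous_apply i).comp continuous_fst)

theorem isOpen_GP (f : C(Cube d, Cube d)) (i j : Fin d) (a b A : ℝ) : IsOpen (GP f i j a b A) :=
  (isOpen_forall_lt (continuous_Gz f i j) isCompact_Icc).inter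
    (isOpen_forall_lt (continuous_Gz f i j) isCompact_Icc)

theorem isOpen_GN (f : C(Cube d, Cube d)) (i j : Fin d) (a b A : ℝ) : IsOpen (GN f i j a b A) := by
  have e : GN f i j a b A = {z | ∀ s ∈ Icc (a - A) (a + A), 0 < -(G f i j z s - z i)} ∩
      {z | ∀ s ∈ Icc (b - A) (b + A), 0 < -(G f i j z s - z i)} := by
    ext z; simp only [GN, Left.neg_pos_iff]; rfl
  rw [e]
  exact (isOpen_forall_lt (continuous_Gz f i j).neg isCompact_Icc).inter
    (isOpen_forall_lt (continuous_Gz f i j).neg isCompact_Icc)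

theorem isOpen_GX (f : C(Cube d, Cube d)) (i j : Fin d) (a b A : ℝ) : IsOpen (GX f i j a b A) := by
  have e : GX f i j a b A = ⋃ (s1 : ℝ) (s2 : ℝ) (_ : a + 2 * A ≤ s1) (_ : s1 < s2)
      (_ : s2 ≤ b - 2 * A) (_ : s2 - s1 < A / 8), {z | Cr f i j z s1 s2} := by
    ext z; simp only [GX, mem_iUnion, exists_prop]; rfl
  rw [e]
  refine isOpen_iUnion fun s1 => isOpen_iUnion fun s2 => isOpen_iUnion fun _ =>
    isOpen_iUnion fun _ => isOpen_iUnion fun _ => isOpen_iUnion fun _ => ?_
  exact (isOpen_Cr i j s1 s2).preimage (Continuous.prodMk_right f)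

/-- the perturbed base point stays in a given neighbourhood -/
theorem pert_mem {O : Set (Fin d → ℝ)} (hO : IsOpen O) {z : Fin d → ℝ}
    (hz : z ∈ Icc (0 : Fin d → ℝ) 1) (hzO : z ∈ O) (k : Fin d) :
    ∃ ε0 : ℝ, 0 < ε0 ∧ ∀ ε : ℝ, 0 < ε → ε < ε0 → ∀ t ∈ Icc (0:ℝ) 1,
      Function.update z k (z k + ε * t * b1 (z k)) ∈ O := by
  obtain ⟨r, hr, hb⟩ := Metric.isOpen_iff.1 hO z hzO
  refine ⟨r, hr, fun ε hε hεr t ht => hb ?_⟩
  have hzk : z k ∈ Icc (0:ℝ) 1 := ⟨hz.1 k, hz.2 k⟩
  rw [Metric.mem_ball]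
  refine lt_of_le_of_lt ((dist_pi_le_iff hε.le).2 fun m => ?_) hεr
  by_cases hm : m = k
  · subst hm
    rw [Function.update_self, Real.dist_eq, add_sub_cancel_left]
    have h1 := b1_nonneg hzk
    have h2 := b1_le_one hzk
    have h3 := ht.1
    rw [abs_of_nonneg (by positivity)]
    have : t * b1 (z m) ≤ 1 := mul_le_one₀ ht.2 h1 h2
    nlinarith
  · rw [Function.update_of_ne hm, dist_self]; exact hε.le

theorem good_not_bad (f : C(Cube d, Cube d)) {i k : Fin d} (hik : k ≠ i) (j : Fin d) {a b A : ℝ}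
    (hA : 0 < A) (ha : 0 ≤ a) (hb : b ≤ 1) (hab : a ≤ b) {z : Fin d → ℝ}
    (hz : z ∈ Icc (0 : Fin d → ℝ) 1) (hzk0 : 0 < z k) (hzk1 : z k < 1)
    (hg : z ∈ GP f i j a b A ∪ GN f i j a b A ∪ GX f i j a b A) :
    ∃ ε0 : ℝ, 0 < ε0 ∧ ∀ ε : ℝ, 0 < ε → ε < ε0 →
      z ∉ bad (f.comp ⟨zz i k A ε, zz_continuous i k hA.le⟩) i j a b := by
  have haI : a ∈ Icc (0:ℝ) 1 := ⟨ha, hab.trans hb⟩
  have hbI : b ∈ Icc (0:ℝ) 1 := ⟨ha.trans hab, hb⟩
  have hθ : ∀ ε t : ℝ, t ∈ Icc (0:ℝ) 1 →
      t + Real.cos ((z k + ε * t * b1 (z k)) / ε ^ 2) / 2 * bA A t ∈ Icc (t - A) (t + A) := by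
    intro ε t ht
    have h1 := Real.abs_cos_le_one ((z k + ε * t * b1 (z k)) / ε ^ 2)
    have h2 := bA_nonneg hA.le ht
    have h3 : bA A t ≤ A := bA_le
    have h4 := abs_le.1 h1
    constructor <;> nlinarith
  have hupi : ∀ ζ : ℝ, Function.update z k ζ i = z i := fun ζ => Function.update_of_ne hik.symm _ _
  rcases hg with (hg | hg) | hg
  · obtain ⟨e0, he0, H⟩ := pert_mem (isOpen_GP f i j a b A) hz hg k
    refine ⟨min e0 (1 / 2), lt_min he0 (by norm_num), fun ε hε hεe hbad => ?_⟩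
    have hε1 := hεe.trans_le (min_le_left _ _)
    have hε2 := (hεe.trans_le (min_le_right _ _)).le
    have h1 := hbad.2.1
    rw [G_zz f hik j hA.le hε hε2 hz haI, G_zz f hik j hA.le hε hε2 hz hbI] at h1
    have h2 := (H ε hε hε1 a haI).1 _ (hθ ε a haI)
    have h3 := (H ε hε hε1 b hbI).2 _ (hθ ε b hbI)
    rw [hupi] at h2 h3
    exact absurd h1 (not_le.2 (mul_pos h2 h3))
  · obtain ⟨e0, he0, H⟩ := pert_mem (isOpen_GN f i j a b A) hz hg k
    refine ⟨min e0 (1 / 2), lt_min he0 (by norm_num), fun ε hε hεe hbad => ?_⟩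
    have hε1 := hεe.trans_le (min_le_left _ _)
    have hε2 := (hεe.trans_le (min_le_right _ _)).le
    have h1 := hbad.2.1
    rw [G_zz f hik j hA.le hε hε2 hz haI, G_zz f hik j hA.le hε hε2 hz hbI] at h1
    have h2 := (H ε hε hε1 a haI).1 _ (hθ ε a haI)
    have h3 := (H ε hε hε1 b hbI).2 _ (hθ ε b hbI)
    rw [hupi] at h2 h3
    exact absurd h1 (not_le.2 (mul_pos_of_neg_of_neg h2 h3))
  · obtain ⟨s1, s2, hs1, hs12, hs2, hs, hcr⟩ := hg
    -- the open set where the two signs persist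
    set σ : ℝ := G f i j z s1 - z i with hσ
    set O : Set (Fin d → ℝ) := {w | 0 < (G f i j w s1 - w i) * σ} ∩
      {w | (G f i j w s2 - w i) * σ < 0} with hO
    have hσ0 : σ ≠ 0 := by
      intro h; rw [Cr, ← hσ, h, zero_mul] at hcr; exact lt_irrefl _ hcr
    have hOo : IsOpen O := by
      refine (isOpen_lt continuous_const ?_).inter (isOpen_lt ?_ continuous_const)
      · exact ((continuous_Gs f i j s1).sub (continuous_apply i)).mul continuous_const
      · exact ((continuous_Gs f i j s2).sub (continuous_apply i)).mul continuous_const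
    have hzO : z ∈ O := by
      refine ⟨?_, ?_⟩
      · show 0 < (G f i j z s1 - z i) * σ
        rw [← hσ]; exact mul_self_pos.2 hσ0
      · show (G f i j z s2 - z i) * σ < 0
        rw [mul_comm]; exact hcr
    obtain ⟨e0, he0, H⟩ := pert_mem hOo hz hzO k
    have hbp : 0 < b1 (z k) := lt_min hzk0 (by linarith)
    set e1 : ℝ := b1 (z k) * A / (32 * Real.pi) with he1
    have hpi := Real.pi_pos
    have he1p : 0 < e1 := by positivity
    refine ⟨min e0 (min e1 (1 / 2)), lt_min he0 (lt_min he1p (by norm_num)),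
      fun ε hε hεe hbad => ?_⟩
    have hε1 := hεe.trans_le (min_le_left _ _)
    have hε2 := (hεe.trans_le (min_le_right _ _)).trans_le (min_le_left _ _)
    have hε3 := ((hεe.trans_le (min_le_right _ _)).trans_le (min_le_right _ _)).le
    set ω : ℝ := b1 (z k) / ε with hω
    set φ : ℝ := z k / ε ^ 2 with hφ
    have hωp : 0 < ω := by positivity
    have hph : ∀ t : ℝ, (z k + ε * t * b1 (z k)) / ε ^ 2 = φ + t * ω := by
      intro t; rw [hφ, hω]; field_simp
    have hπω : 4 * Real.pi / ω ≤ A / 8 := by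
      rw [hω, div_div_eq_mul_div, div_le_iff₀ hbp]
      rw [he1, lt_div_iff₀ (by positivity)] at hε2
      nlinarith
    obtain ⟨tα, hα1, hα2, hα3, hα4, hα5⟩ := extreme_times φ ω (s1 - A / 8) hωp
    have hd1 : 2 * Real.pi / ω = Real.pi / ω + Real.pi / ω := by ring
    have hd2 : 4 * Real.pi / ω = 2 * Real.pi / ω + 2 * Real.pi / ω := by ring
    have hd3 : 0 < Real.pi / ω := by positivity
    have hrange : ∀ t : ℝ, tα ≤ t → t ≤ tα + 2 * Real.pi / ω → a ≤ t ∧ t ≤ b ∧
        t ∈ Icc (0:ℝ) 1 ∧ bA A t = A := by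
      intro t h1 h2
      have k1 : s1 - A / 8 ≤ t := by linarith
      have k2 : t ≤ s1 := by linarith
      refine ⟨by linarith, by linarith, ⟨by linarith, by linarith⟩, ?_⟩
      exact min_eq_left (le_min (by linarith) (by linarith))
    set θ : ℝ → ℝ := fun t => t + Real.cos ((z k + ε * t * b1 (z k)) / ε ^ 2) / 2 * bA A t with hθd
    have hθc : Continuous θ := by
      have := (prof_bA hA.le).cont
      rw [hθd]
      fun_prop
    set tβ : ℝ := tα + Real.pi / ω with htβ
    set tγ : ℝ := tα + 2 * Real.pi / ω with htγ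
    have hθα : θ tα = tα - A / 2 := by
      simp only [hθd]; rw [hph, hα3, (hrange tα le_rfl (by linarith)).2.2.2]; ring
    have hθβ : θ tβ = tβ + A / 2 := by
      simp only [hθd]; rw [hph, hα4, (hrange tβ (by linarith) (by linarith)).2.2.2]; ring
    have hθγ : θ tγ = tγ - A / 2 := by
      simp only [hθd]; rw [hph, hα5, (hrange tγ (by linarith) (by linarith)).2.2.2]; ring
    obtain ⟨t1, ht1, ht1s⟩ := intermediate_value_Ioo (show tα ≤ tβ by linarith) hθc.continuousOn
      (show s1 ∈ Ioo (θ tα) (θ tβ) from ⟨by rw [hθα]; linarith, by rw [hθβ]; linarith⟩)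
    obtain ⟨t2, ht2, ht2s⟩ := intermediate_value_Ioo (show t1 ≤ tβ by linarith [ht1.2])
      hθc.continuousOn
      (show s2 ∈ Ioo (θ t1) (θ tβ) from ⟨by rw [ht1s]; exact hs12, by rw [hθβ]; linarith⟩)
    obtain ⟨t3, ht3, ht3s⟩ := intermediate_value_Ioo' (show tβ ≤ tγ by linarith) hθc.continuousOn
      (show s1 ∈ Ioo (θ tγ) (θ tβ) from ⟨by rw [hθγ]; linarith, by rw [hθβ]; linarith⟩)
    have r1 := hrange t1 (by linarith [ht1.1]) (by linarith [ht1.2])
    have r2 := hrange t2 (by linarith [ht1.1, ht2.1]) (by linarith [ht2.2])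
    have r3 := hrange t3 (by linarith [ht3.1]) (by linarith [ht3.2])
    refine hbad.2.2 t1 t2 t3 r1.1 ht2.1 (by linarith [ht2.2, ht3.1]) r3.2.1
      (by linarith [ht1.1, ht3.2]) ?_
    have w1 := H ε hε hε1 t1 r1.2.2.1
    have w2 := H ε hε hε1 t2 r2.2.2.1
    have w3 := H ε hε hε1 t3 r3.2.2.1
    have e1' : G (f.comp ⟨zz i k A ε, zz_continuous i k hA.le⟩) i j z t1 =
      G f i j (Function.update z k (z k + ε * t1 * b1 (z k))) s1 := by
      rw [G_zz f hik j hA.le hε hε3 hz r1.2.2.1]; congr 1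
    have e2' : G (f.comp ⟨zz i k A ε, zz_continuous i k hA.le⟩) i j z t2 =
      G f i j (Function.update z k (z k + ε * t2 * b1 (z k))) s2 := by
      rw [G_zz f hik j hA.le hε hε3 hz r2.2.2.1]; congr 1
    have e3' : G (f.comp ⟨zz i k A ε, zz_continuous i k hA.le⟩) i j z t3 =
      G f i j (Function.update z k (z k + ε * t3 * b1 (z k))) s1 := by
      rw [G_zz f hik j hA.le hε hε3 hz r3.2.2.1]; congr 1
    rw [Cr, Cr, e1', e2', e3']
    have v1 : 0 < (G f i j (Function.update z k (z k + ε * t1 * b1 (z k))) s1 - z i) * σ := by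
      have := w1.1; simp only [mem_setOf_eq] at this; rwa [hupi] at this
    have v2 : (G f i j (Function.update z k (z k + ε * t2 * b1 (z k))) s2 - z i) * σ < 0 := by
      have := w2.2; simp only [mem_setOf_eq] at this; rwa [hupi] at this
    have v3 : 0 < (G f i j (Function.update z k (z k + ε * t3 * b1 (z k))) s1 - z i) * σ := by
      have := w3.1; simp only [mem_setOf_eq] at this; rwa [hupi] at this
    have hσ2 : 0 < σ * σ := mul_self_pos.2 hσ0
    constructor
    · by_contra hcon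
      rw [not_lt] at hcon
      nlinarith [mul_nonneg hcon hσ2.le, mul_pos_of_neg_of_neg (show -_ < (0:ℝ) from neg_lt_zero.2 v1) v2]
    · by_contra hcon
      rw [not_lt] at hcon
      nlinarith [mul_nonneg hcon hσ2.le, mul_pos_of_neg_of_neg (show -_ < (0:ℝ) from neg_lt_zero.2 v3) v2]

/-! ### Density -/

theorem sign_change (h : ℕ → ℝ) (hne : ∀ m, h m ≠ 0) (N : ℕ) (h0 : h 0 * h N < 0) :
    ∃ m < N, h m * h (m + 1) < 0 := by
  by_contra hcon
  push Not at hcon
  have key : ∀ m ≤ N, 0 < h 0 * h m := by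
    intro m
    induction m with
    | zero => intro _; exact mul_self_pos.2 (hne 0)
    | succ m ih =>
      intro hm
      have h1 := ih (by omega)
      have h2 := hcon m (by omega)
      have h3 : 0 < h m * h m := mul_self_pos.2 (hne m)
      have h4 : h 0 * h (m+1) ≠ 0 := mul_ne_zero (hne 0) (hne _)
      have h5 : 0 ≤ (h 0 * h (m+1)) * (h m * h m) := by
        have := mul_nonneg h1.le h2
        nlinarith
      exact lt_of_le_of_ne (nonneg_of_mul_nonneg_left h5 h3) h4.symm
  have := key N le_rfl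
  linarith

/-- the union of the good sets -/
def Good (f : C(Cube d, Cube d)) (i j : Fin d) (a b A : ℝ) : Set (Fin d → ℝ) :=
  GP f i j a b A ∪ GN f i j a b A ∪ GX f i j a b A

theorem isOpen_Good (f : C(Cube d, Cube d)) (i j : Fin d) (a b A : ℝ) :
    IsOpen (Good f i j a b A) :=
  ((isOpen_GP f i j a b A).union (isOpen_GN f i j a b A)).union (isOpen_GX f i j a b A)

theorem tendsto_A : Tendsto (fun n : ℕ => 1 / ((n : ℝ) + 1)) atTop (𝓝 0) :=
  tendsto_one_div_add_atTop_nhds_zero_nat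

theorem eventually_Icc {g : ℝ → ℝ} (hg : Continuous g) {a : ℝ} (ha : 0 < g a) :
    ∀ᶠ n : ℕ in atTop, ∀ s ∈ Icc (a - 1 / ((n : ℝ) + 1)) (a + 1 / ((n : ℝ) + 1)), 0 < g s := by
  obtain ⟨δ, hδ, hb⟩ := Metric.isOpen_iff.1 (isOpen_lt continuous_const hg) a ha
  filter_upwards [tendsto_A.eventually_lt_const hδ] with n hn s hs
  refine hb ?_
  rw [Metric.mem_ball, Real.dist_eq, abs_lt]
  constructor <;> linarith [hs.1, hs.2]

theorem good_event (f : C(Cube d, Cube d)) (i j : Fin d) {a b : ℚ} (hab : (a : ℝ) < b)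
    {z : Fin d → ℝ} (hne : ∀ q : ℚ, z i ≠ G f i j z q) :
    ∀ᶠ n : ℕ in atTop, z ∈ Good f i j a b (1 / ((n : ℝ) + 1)) := by
  have hgc : Continuous fun s => G f i j z s - z i := by
    have := continuous_Gz f i j
    exact this.comp (continuous_const.prodMk continuous_id)
  have hq : ∀ q : ℚ, G f i j z q - z i ≠ 0 := fun q => sub_ne_zero.2 (hne q).symm
  rcases lt_or_gt_of_ne (mul_ne_zero (hq a) (hq b)) with hprod | hprod
  · -- crossing
    have e1 : ∀ᶠ n : ℕ in atTop, ∀ s ∈ Icc (0 - 1 / ((n : ℝ) + 1)) (0 + 1 / ((n : ℝ) + 1)),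
        0 < -((G f i j z (a + 2 * s) - z i) * (G f i j z (b - 2 * s) - z i)) := by
      refine eventually_Icc (g := fun s => -((G f i j z (a + 2 * s) - z i) *
        (G f i j z (b - 2 * s) - z i))) ?_ ?_
      · have h1 : Continuous fun s : ℝ => G f i j z (a + 2 * s) - z i :=
          hgc.comp (continuous_const.add (continuous_const.mul continuous_id))
        have h2 : Continuous fun s : ℝ => G f i j z (b - 2 * s) - z i :=
          hgc.comp (continuous_const.sub (continuous_const.mul continuous_id))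
        exact (h1.mul h2).neg
      · simpa using hprod
    filter_upwards [e1, tendsto_A.eventually_lt_const (show (0 : ℝ) < (b - a) / 4 by linarith)]
      with n hn hn2
    have hA0 : (0 : ℝ) < 1 / ((n : ℝ) + 1) := by positivity
    have hn' := hn (1 / ((n : ℝ) + 1)) ⟨by linarith, by linarith⟩
    set A : ℝ := 1 / ((n : ℝ) + 1) with hA
    -- rational versions
    set Aq : ℚ := 1 / ((n : ℚ) + 1) with hAq
    have hAA : (Aq : ℝ) = A := by rw [hA, hAq]; push_cast; ring
    set u : ℚ := a + 2 * Aq with hu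
    set v : ℚ := b - 2 * Aq with hv
    have hu' : (u : ℝ) = a + 2 * A := by rw [hu]; push_cast; rw [hAA]
    have hv' : (v : ℝ) = b - 2 * A := by rw [hv]; push_cast; rw [hAA]
    have huv : (u : ℝ) < v := by rw [hu', hv']; linarith
    obtain ⟨N, hN⟩ := exists_nat_gt (((v : ℝ) - u) / (A / 8))
    have hN0 : (0 : ℝ) < N := lt_of_le_of_lt (div_nonneg (by linarith) (by positivity)) hN
    have hN0' : (N : ℚ) ≠ 0 := by
      have : (N : ℝ) ≠ 0 := hN0.ne'
      exact_mod_cast this
    let P : ℕ → ℚ := fun m => u + m * ((v - u) / N)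
    have hP0 : P 0 = u := by simp [P]
    have hPN : P N = v := by simp only [P]; field_simp; ring
    have hPs : ∀ m, (P (m + 1) : ℝ) = P m + (v - u) / N := by
      intro m; simp only [P]; push_cast; ring
    have hstep : (0:ℝ) < ((v : ℝ) - u) / N := div_pos (by linarith) hN0
    have hstep2 : ((v : ℝ) - u) / N < A / 8 := by
      rw [div_lt_iff₀ hN0]
      rw [div_lt_iff₀ (by positivity)] at hN
      linarith
    obtain ⟨m, hmN, hm⟩ := sign_change (fun m => G f i j z (P m) - z i) (fun m => hq _) N (by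
      rw [hP0, hPN, hu', hv']
      linarith)
    refine Or.inr ⟨P m, P (m + 1), ?_, ?_, ?_, ?_, hm⟩
    · rw [← hu']
      simp only [P]
      push_cast
      have : (0 : ℝ) ≤ (m : ℝ) * ((v - u) / N) := mul_nonneg m.cast_nonneg hstep.le
      linarith
    · rw [hPs]; linarith
    · rw [← hv', ← hPN]
      simp only [P]
      push_cast
      have h1 : ((m : ℝ) + 1) ≤ N := by exact_mod_cast hmN
      have := mul_le_mul_of_nonneg_right h1 hstep.le
      linarith
    · rw [hPs]; linarith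
  · rcases lt_or_gt_of_ne (hq a) with ha | ha
    · have hb : G f i j z b - z i < 0 := by
        by_contra hcon
        rw [not_lt] at hcon
        nlinarith [mul_nonneg (neg_nonneg.2 ha.le) hcon]
      have hgn : Continuous fun s => -(G f i j z s - z i) := hgc.neg
      filter_upwards [eventually_Icc hgn (neg_pos.2 ha), eventually_Icc hgn (neg_pos.2 hb)]
        with n h1 h2
      exact Or.inl (Or.inr ⟨fun s hs => neg_pos.1 (h1 s hs), fun s hs => neg_pos.1 (h2 s hs)⟩)
    · have hb : 0 < G f i j z b - z i := by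
        by_contra hcon
        rw [not_lt] at hcon
        nlinarith [mul_nonneg ha.le (neg_nonneg.2 hcon)]
      filter_upwards [eventually_Icc hgc ha, eventually_Icc hgc hb] with n h1 h2
      exact Or.inl (Or.inl ⟨h1, h2⟩)

theorem claim1 (f : C(Cube d, Cube d)) (i j : Fin d) {a b : ℚ} (hab : (a : ℝ) < b) :
    Tendsto (fun n : ℕ => volume (Icc (0 : Fin d → ℝ) 1 \ Good f i j a b (1 / ((n : ℝ) + 1))))
      atTop (𝓝 0) := by
  have hae : ∀ᵐ z : Fin d → ℝ, ∀ q : ℚ, z i ≠ G f i j z q := by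
    rw [ae_all_iff]
    intro q
    rw [ae_iff]
    have := null_graph (fun z => G f i j z q) (continuous_Gs f i j q) i
      (fun z s => G_update f i j z s q)
    simpa using this
  have := tendsto_measure_of_ae_tendsto_indicator (μ := (volume : Measure (Fin d → ℝ)))
    (L := (atTop : Filter ℕ)) (A := ∅)
    (As := fun n : ℕ => Icc (0 : Fin d → ℝ) 1 \ Good f i j a b (1 / ((n : ℝ) + 1)))
    (B := Icc (0 : Fin d → ℝ) 1) MeasurableSet.empty
    (fun n => measurableSet_Icc.diff (isOpen_Good _ _ _ _ _ _).measurableSet) measurableSet_Icc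
    (isCompact_Icc.measure_lt_top.ne) (Eventually.of_forall fun n => diff_subset) (by
      filter_upwards [hae] with z hz
      filter_upwards [good_event f i j hab hz] with n hn
      exact ⟨fun h => absurd hn h.2, fun h => absurd h (notMem_empty z)⟩)
  rwa [measure_empty] at this

theorem claim2 (f : C(Cube d, Cube d)) {i k : Fin d} (hik : k ≠ i) (j : Fin d) {a b A : ℝ}
    (hA : 0 < A) (ha : 0 ≤ a) (hb : b ≤ 1) (hab : a ≤ b) :
    Tendsto (fun m : ℕ => volume (bad (f.comp ⟨zz i k A (1 / ((m : ℝ) + 1)),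
      zz_continuous i k hA.le⟩) i j a b ∩ Good f i j a b A)) atTop (𝓝 0) := by
  have hae0 : ∀ᵐ z : Fin d → ℝ, z k ≠ 0 := by
    rw [ae_iff]
    have := null_graph (d := d) (fun _ => 0) continuous_const k (fun _ _ => rfl)
    simpa using this
  have hae1 : ∀ᵐ z : Fin d → ℝ, z k ≠ 1 := by
    rw [ae_iff]
    have := null_graph (d := d) (fun _ => 1) continuous_const k (fun _ _ => rfl)
    simpa using this
  have := tendsto_measure_of_ae_tendsto_indicator (μ := (volume : Measure (Fin d → ℝ)))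
    (L := (atTop : Filter ℕ)) (A := ∅)
    (As := fun m : ℕ => bad (f.comp ⟨zz i k A (1 / ((m : ℝ) + 1)),
      zz_continuous i k hA.le⟩) i j a b ∩ Good f i j a b A)
    (B := Icc (0 : Fin d → ℝ) 1) MeasurableSet.empty
    (fun n => (isClosed_bad _ _ _ _ _).measurableSet.inter (isOpen_Good _ _ _ _ _ _).measurableSet)
    measurableSet_Icc
    (isCompact_Icc.measure_lt_top.ne)
    (Eventually.of_forall fun n => inter_subset_left.trans (bad_subset _ _ _ _ _)) (by
      filter_upwards [hae0, hae1] with z hz0 hz1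
      by_cases hz : z ∈ Icc (0 : Fin d → ℝ) 1
      · by_cases hg : z ∈ Good f i j a b A
        · obtain ⟨ε0, hε0, H⟩ := good_not_bad f hik j hA ha hb hab hz
            (lt_of_le_of_ne (hz.1 k) hz0.symm) (lt_of_le_of_ne (hz.2 k) hz1) hg
          filter_upwards [tendsto_A.eventually_lt_const hε0] with m hm
          have := H (1 / ((m : ℝ) + 1)) (by positivity) hm
          exact ⟨fun h => absurd h.1 this, fun h => absurd h (notMem_empty z)⟩
        · exact Eventually.of_forall fun m =>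
            ⟨fun h => absurd h.2 hg, fun h => absurd h (notMem_empty z)⟩
      · exact Eventually.of_forall fun m =>
          ⟨fun h => absurd h.1.1 hz, fun h => absurd h (notMem_empty z)⟩)
  rwa [measure_empty] at this

theorem approx (f : C(Cube d, Cube d)) {i k : Fin d} (hik : k ≠ i) (j : Fin d) {a b : ℚ}
    (ha : 0 ≤ (a : ℝ)) (hb : (b : ℝ) ≤ 1) (hab : (a : ℝ) < b) {δ : ENNReal} (hδ : 0 < δ) {η : ℝ}
    (hη : 0 < η) : ∃ h : C(Cube d, Cube d), Function.Bijective h ∧ (∀ x, dist (h x) x < η) ∧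
      volume (bad (f.comp h) i j a b) < δ := by
  have hδ2 : 0 < δ / 2 := ENNReal.half_pos hδ.ne'
  obtain ⟨n, hn1, hn2⟩ := (((claim1 f i j hab).eventually_lt_const hδ2).and
    (tendsto_A.eventually_lt_const (show (0 : ℝ) < η / 2 by positivity))).exists
  have hA : (0 : ℝ) < 1 / ((n : ℝ) + 1) := by positivity
  obtain ⟨m, hm1, hm2, hm3⟩ := (((claim2 f hik j hA ha hb hab.le).eventually_lt_const hδ2).and
    ((tendsto_A.eventually_lt_const (show (0 : ℝ) < η / 2 by positivity)).and
    (tendsto_A.eventually_lt_const (show (0 : ℝ) < 1 / 2 by norm_num)))).exists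
  have hε : (0 : ℝ) < 1 / ((m : ℝ) + 1) := by positivity
  refine ⟨⟨zz i k (1 / ((n : ℝ) + 1)) (1 / ((m : ℝ) + 1)), zz_continuous i k hA.le⟩,
    zz_bijective hik hA.le hε hm3.le, fun x => ?_, ?_⟩
  · have := dist_zz_le i k hA.le hε hm3.le x
    exact lt_of_le_of_lt this (by linarith)
  · refine lt_of_le_of_lt (measure_mono (t := (Icc (0 : Fin d → ℝ) 1 \
      Good f i j a b (1 / ((n : ℝ) + 1))) ∪ (bad (f.comp ⟨zz i k (1 / ((n : ℝ) + 1))
      (1 / ((m : ℝ) + 1)), zz_continuous i k hA.le⟩) i j a b ∩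
      Good f i j a b (1 / ((n : ℝ) + 1)))) ?_) ?_
    · intro z hz
      by_cases hg : z ∈ Good f i j a b (1 / ((n : ℝ) + 1))
      · exact Or.inr ⟨hz, hg⟩
      · exact Or.inl ⟨hz.1, hg⟩
    · refine lt_of_le_of_lt (measure_union_le _ _) ?_
      calc _ < δ / 2 + δ / 2 := ENNReal.add_lt_add hn1 hm1
        _ = δ := ENNReal.add_halves δ

/-! ### The generic homeomorphism -/

theorem dense_small {i k : Fin d} (hik : k ≠ i) (j : Fin d) {a b : ℚ}
    (ha : 0 ≤ (a : ℝ)) (hb : (b : ℝ) ≤ 1) (hab : (a : ℝ) < b) {δ : ENNReal} (hδ : 0 < δ) :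
    Dense {f : HomeoCube d | volume (bad f.1 i j a b) < δ} := by
  intro f
  rw [Metric.mem_closure_iff]
  intro ε hε
  have huc : UniformContinuous f.1 := CompactSpace.uniformContinuous_of_continuous f.1.continuous
  obtain ⟨η, hη, H⟩ := Metric.uniformContinuous_iff.1 huc ε hε
  obtain ⟨h, hbij, hdist, hvol⟩ := approx f.1 hik j ha hb hab hδ hη
  have hh : IsHomeomorph h := isHomeomorph_iff_continuous_bijective.2 ⟨h.continuous, hbij⟩
  refine ⟨⟨f.1.comp h, f.2.comp hh⟩, hvol, ?_⟩
  rw [Subtype.dist_eq, ContinuousMap.dist_lt_iff hε]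
  intro x
  rw [ContinuousMap.comp_apply]
  refine H ?_
  rw [dist_comm]; exact hdist x

theorem generic_bad (hd : 2 ≤ d) :
    ∀ᶠ f : HomeoCube d in residual (HomeoCube d), ∀ (i j : Fin d) (a b : ℚ), 0 ≤ (a : ℝ) →
      (a : ℝ) < b → (b : ℝ) ≤ 1 → volume (bad f.1 i j a b) = 0 := by
  have key : ∀ (i j : Fin d) (a b : ℚ), 0 ≤ (a : ℝ) → (a : ℝ) < b → (b : ℝ) ≤ 1 → ∀ m : ℕ,
      ∀ᶠ f : HomeoCube d in residual (HomeoCube d), volume (bad f.1 i j a b) < ((m : ENNReal) + 1)⁻¹ := by
    intro i j a b ha hab hb m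
    obtain ⟨k, hk⟩ : ∃ k : Fin d, k ≠ i := by
      have : Nontrivial (Fin d) := Fin.nontrivial_iff_two_le.2 hd
      exact exists_ne i
    refine residual_of_dense_open ?_ (dense_small hk j ha hb hab ?_)
    · exact (isOpen_small i j a b _).preimage continuous_subtype_val
    · exact ENNReal.inv_pos.2 (by simp)
  simp only [eventually_countable_forall]
  intro i j a b ha hab hb
  have := eventually_countable_forall.2 (key i j a b ha hab hb)
  filter_upwards [this] with f hf
  by_contra hne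
  obtain ⟨n, hn⟩ := ENNReal.exists_inv_nat_lt hne
  have h1 := hf n
  have h2 : ((n : ENNReal) + 1)⁻¹ ≤ (n : ENNReal)⁻¹ := ENNReal.inv_le_inv.2 le_self_add
  exact absurd (h1.trans_le (h2.trans hn.le)) (lt_irrefl _)

/-- the projection -/
def pr (i j : Fin d) (w : R2 d) : Fin d → ℝ :=
  fun k => w (if k = i then Sum.inr j else Sum.inl k)

theorem pr_lip (i j : Fin d) : LipschitzWith 1 (pr i j) := by
  refine LipschitzWith.of_dist_le_mul fun v w => ?_
  rw [NNReal.coe_one, one_mul, dist_pi_le_iff dist_nonneg]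
  intro k
  have h := (PiLp.lipschitzWith_ofLp 2 (fun _ : Fin d ⊕ Fin d => ℝ)).dist_le_mul v w
  rw [NNReal.coe_one, one_mul] at h
  exact (dist_le_pi_dist (WithLp.ofLp v) (WithLp.ofLp w) _).trans h

theorem pr_measure (i j : Fin d) (S : Set (R2 d)) :
    volume (pr i j '' S) ≤ Measure.hausdorffMeasure (d : ℝ) S := by
  have h := (pr_lip i j).hausdorffMeasure_image_le (d := (d : ℝ)) d.cast_nonneg S
  have e : (Measure.hausdorffMeasure (d : ℝ) : Measure (Fin d → ℝ)) = volume := by
    have := hausdorffMeasure_pi_real (ι := Fin d)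
    rwa [Fintype.card_fin] at this
  rw [e] at h
  simpa using h

theorem cl_update (z : Fin d → ℝ) (i : Fin d) (t : ℝ) :
    cl (Function.update z i t) = Function.update (cl z) i (projIcc 0 1 zero_le_one t) := by
  ext k
  by_cases hk : k = i
  · subst hk; simp [cl]
  · simp [Function.update_of_ne hk, cl]

/-- a crossing inside a given open set -/
theorem exists_crossing (hd : 0 < d) (f : C(Cube d, Cube d)) (hf : Function.Injective f)
    {V : Set (Cube d)} (hV : IsOpen V) (hne : V.Nonempty) :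
    ∃ (i j : Fin d) (s t : ℝ) (z : Fin d → ℝ), 0 ≤ s ∧ s < t ∧ t ≤ 1 ∧
      z ∈ Icc (0 : Fin d → ℝ) 1 ∧ Cr f i j z s t ∧
      ∀ τ ∈ Icc s t, cl (Function.update z i τ) ∈ V := by
  classical
  obtain ⟨x0, hx0⟩ := hne
  obtain ⟨r, hr, hb⟩ := Metric.isOpen_iff.1 hV x0 hx0
  -- a second point
  obtain ⟨x1, hx1, hx1b⟩ : ∃ x1 : Cube d, x1 ≠ x0 ∧ dist x1 x0 < r := by
    let i0 : Fin d := ⟨0, hd⟩
    have hI : ∃ u : unitInterval, u ≠ x0 i0 ∧ dist u (x0 i0) < r := by
      have h1 := (x0 i0).2.1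
      have h2 := (x0 i0).2.2
      rcases lt_or_ge (x0 i0 : ℝ) 1 with h | h
      · refine ⟨⟨(x0 i0 : ℝ) + min (r / 2) (1 - x0 i0), ?_, ?_⟩, ?_, ?_⟩
        · have := lt_min (show 0 < r / 2 by positivity) (show 0 < 1 - (x0 i0 : ℝ) by linarith)
          linarith
        · have := min_le_right (r / 2) (1 - (x0 i0 : ℝ))
          linarith
        · intro he
          have := congrArg Subtype.val he
          simp only at this
          have := lt_min (show 0 < r / 2 by positivity) (show 0 < 1 - (x0 i0 : ℝ) by linarith)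
          linarith
        · rw [Subtype.dist_eq, Real.dist_eq]
          have h3 := lt_min (show 0 < r / 2 by positivity) (show 0 < 1 - (x0 i0 : ℝ) by linarith)
          have h4 := min_le_left (r / 2) (1 - (x0 i0 : ℝ))
          rw [add_sub_cancel_left, abs_of_pos h3]
          linarith
      · have h5 : (x0 i0 : ℝ) = 1 := le_antisymm h2 h
        refine ⟨⟨1 - min (r / 2) 1, ?_, ?_⟩, ?_, ?_⟩
        · have := min_le_right (r / 2) 1
          linarith
        · have := lt_min (show 0 < r / 2 by positivity) (show (0:ℝ) < 1 by norm_num)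
          linarith
        · intro he
          have := congrArg Subtype.val he
          simp only at this
          have := lt_min (show 0 < r / 2 by positivity) (show (0:ℝ) < 1 by norm_num)
          linarith
        · rw [Subtype.dist_eq, Real.dist_eq, h5]
          have h3 := lt_min (show 0 < r / 2 by positivity) (show (0:ℝ) < 1 by norm_num)
          have h4 := min_le_left (r / 2) (1:ℝ)
          rw [show (1 - min (r / 2) 1 - 1 : ℝ) = -min (r / 2) 1 by ring, abs_neg, abs_of_pos h3]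
          linarith
    obtain ⟨u, hu, hur⟩ := hI
    refine ⟨Function.update x0 i0 u, fun he => hu ?_, ?_⟩
    · have := congrFun he i0
      rwa [Function.update_self] at this
    · refine (dist_pi_lt_iff hr).2 fun k => ?_
      by_cases hk : k = i0
      · subst hk; rwa [Function.update_self]
      · rw [Function.update_of_ne hk, dist_self]; exact hr
  have hne : f x1 ≠ f x0 := fun h => hx1 (hf h)
  obtain ⟨j, hj⟩ := Function.ne_iff.1 hne
  -- telescoping
  obtain ⟨S, i, hiS, hSi⟩ : ∃ (S : Finset (Fin d)) (i : Fin d), i ∉ S ∧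
      f ((insert i S).piecewise x1 x0) j ≠ f (S.piecewise x1 x0) j := by
    by_contra hcon
    push Not at hcon
    have : ∀ S : Finset (Fin d), f (S.piecewise x1 x0) j = f x0 j := by
      intro S
      induction S using Finset.induction_on with
      | empty => simp
      | insert i S hi ih => rw [hcon S i hi, ih]
    have h := this Finset.univ
    rw [Finset.piecewise_univ] at h
    exact hj h
  rw [Finset.piecewise_insert] at hSi
  set w : Cube d := S.piecewise x1 x0 with hw
  have hwi : w i = x0 i := by rw [hw, Finset.piecewise_eq_of_notMem _ _ _ hiS]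
  have hi01 : x1 i ≠ x0 i := by
    intro h
    rw [h, ← hwi, Function.update_eq_self] at hSi
    exact hSi rfl
  -- the segment stays in the ball
  have hseg : ∀ u : unitInterval, dist u (x0 i) ≤ dist (x1 i) (x0 i) →
      Function.update w i u ∈ V := by
    intro u hu
    refine hb ?_
    refine lt_of_le_of_lt ((dist_pi_le_iff dist_nonneg).2 fun k => ?_) hx1b
    by_cases hk : k = i
    · subst hk
      rw [Function.update_self]
      exact hu.trans (dist_le_pi_dist x1 x0 k)
    · rw [Function.update_of_ne hk, hw]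
      by_cases hkS : k ∈ S
      · rw [Finset.piecewise_eq_of_mem _ _ _ hkS]; exact dist_le_pi_dist x1 x0 k
      · rw [Finset.piecewise_eq_of_notMem _ _ _ hkS, dist_self]; exact dist_nonneg
  set y0 : ℝ := ((f w j : unitInterval) : ℝ) with hy0
  set y1 : ℝ := ((f (Function.update w i (x1 i)) j : unitInterval) : ℝ) with hy1
  have hy : y1 ≠ y0 := fun h => hSi (Subtype.ext h)
  set z : Fin d → ℝ := Function.update (fun k => (w k : ℝ)) i ((y0 + y1) / 2) with hz
  have hzi : z i = (y0 + y1) / 2 := by rw [hz, Function.update_self]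
  have hclz : ∀ τ : ℝ, cl (Function.update z i τ) =
      Function.update w i (projIcc 0 1 zero_le_one τ) := by
    intro τ
    rw [hz, Function.update_idem, cl_update]
    congr 1
    ext k
    simp [cl]
  have hG : ∀ u : unitInterval, G f i j z u = f (Function.update w i u) j := by
    intro u
    have := hclz u
    rw [cl_update] at this
    rw [G, this, projIcc_of_mem _ u.2]
  have hG0 : G f i j z (x0 i) = y0 := by
    rw [hG, ← hwi, Function.update_eq_self]
  have hG1 : G f i j z (x1 i) = y1 := by rw [hG]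
  have hcr : Cr f i j z (x0 i) (x1 i) := by
    rw [Cr, hG0, hG1, hzi]
    have : (y0 - (y0 + y1) / 2) * (y1 - (y0 + y1) / 2) = - ((y1 - y0) * (y1 - y0)) / 4 := by ring
    rw [this]
    have : 0 < (y1 - y0) * (y1 - y0) := mul_self_pos.2 (sub_ne_zero.2 hy)
    linarith
  have hzI : z ∈ Icc (0 : Fin d → ℝ) 1 := by
    have h01 := (f w j).2
    have h11 := (f (Function.update w i (x1 i)) j).2
    rw [← hy0] at h01
    rw [← hy1] at h11
    constructor
    · intro k
      by_cases hk : k = i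
      · subst hk; rw [hzi]; simp only [Pi.zero_apply]; linarith [h01.1, h11.1]
      · rw [hz, Function.update_of_ne hk]; exact (w k).2.1
    · intro k
      by_cases hk : k = i
      · subst hk; rw [hzi]; simp only [Pi.one_apply]; linarith [h01.2, h11.2]
      · rw [hz, Function.update_of_ne hk]; exact (w k).2.2
  have hV' : ∀ τ : ℝ, τ ∈ Icc (0:ℝ) 1 → |τ - x0 i| ≤ |(x1 i : ℝ) - x0 i| →
      cl (Function.update z i τ) ∈ V := by
    intro τ hτ hd
    rw [hclz, projIcc_of_mem _ hτ]
    refine hseg _ ?_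
    rw [Subtype.dist_eq, Subtype.dist_eq, Real.dist_eq, Real.dist_eq]
    exact hd
  rcases lt_or_gt_of_ne (fun h => hi01 (Subtype.ext h) : (x1 i : ℝ) ≠ x0 i) with hlt | hlt
  · refine ⟨i, j, x1 i, x0 i, z, (x1 i).2.1, hlt, (x0 i).2.2, hzI, ?_, ?_⟩
    · rw [Cr, mul_comm]; exact hcr
    · intro τ hτ
      refine hV' τ ⟨(x1 i).2.1.trans hτ.1, hτ.2.trans (x0 i).2.2⟩ ?_
      rw [abs_of_nonpos (by linarith [hτ.2]), abs_of_nonpos (by linarith)]
      linarith [hτ.1]
  · refine ⟨i, j, x0 i, x1 i, z, (x0 i).2.1, hlt, (x1 i).2.2, hzI, hcr, ?_⟩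
    intro τ hτ
    refine hV' τ ⟨(x0 i).2.1.trans hτ.1, hτ.2.trans (x1 i).2.2⟩ ?_
    rw [abs_of_nonneg (by linarith [hτ.1]), abs_of_nonneg (by linarith)]
    linarith [hτ.2]

theorem main (hd : 0 < d) (f : C(Cube d, Cube d)) (hf : Function.Injective f)
    (hbad : ∀ (i j : Fin d) (a b : ℚ), 0 ≤ (a : ℝ) → (a : ℝ) < b → (b : ℝ) ≤ 1 →
      volume (bad f i j a b) = 0)
    {V : Set (Cube d)} (hV : IsOpen V) (hne : V.Nonempty) (A : ℕ → Set (R2 d))
    (hA : ∀ n, Measure.hausdorffMeasure (d : ℝ) (A n) < ⊤) : ¬ graphOver f V ⊆ ⋃ n, A n := by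
  intro hsub
  obtain ⟨i, j, s, t, z0, hs, hst, ht, hz0, hcr0, hV0⟩ := exists_crossing hd f hf hV hne
  -- the open set of crossings
  set W : Set (Fin d → ℝ) := ({z | Cr f i j z s t} ∩ {z | ∀ τ ∈ Icc s t, cl (Function.update z i τ) ∈ V})
    ∩ {z | ∀ k, 0 < z k ∧ z k < 1} with hW
  have hW1 : IsOpen {z : Fin d → ℝ | Cr f i j z s t} :=
    (isOpen_Cr i j s t).preimage (Continuous.prodMk_right f)
  have hW2 : IsOpen {z : Fin d → ℝ | ∀ τ ∈ Icc s t, cl (Function.update z i τ) ∈ V} := by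
    rw [isOpen_iff_mem_nhds]
    intro z hz
    refine isCompact_Icc.eventually_forall_of_forall_eventually (x₀ := z)
      (P := fun z τ => cl (Function.update z i τ) ∈ V) fun τ hτ => ?_
    have hc : Continuous fun p : (Fin d → ℝ) × ℝ => cl (Function.update p.1 i p.2) :=
      continuous_cl.comp (continuous_fst.update i continuous_snd)
    exact (hV.preimage hc).mem_nhds (hz τ hτ)
  have hW3 : IsOpen {z : Fin d → ℝ | ∀ k, 0 < z k ∧ z k < 1} := by
    rw [show {z : Fin d → ℝ | ∀ k, 0 < z k ∧ z k < 1} = ⋂ k, ({z | 0 < z k} ∩ {z | z k < 1}) by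
      ext z; simp]
    exact isOpen_iInter_of_finite fun k =>
      (isOpen_lt continuous_const (continuous_apply k)).inter
        (isOpen_lt (continuous_apply k) continuous_const)
  have hWo : IsOpen W := (hW1.inter hW2).inter hW3
  have hWne : W.Nonempty := by
    have hc : Continuous fun δ : ℝ => z0 + δ • ((fun _ => 1 / 2) - z0) := by fun_prop
    have h0 : (z0 + (0:ℝ) • ((fun _ => 1 / 2) - z0)) ∈ {z | Cr f i j z s t} ∩
        {z | ∀ τ ∈ Icc s t, cl (Function.update z i τ) ∈ V} := by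
      rw [zero_smul, add_zero]; exact ⟨hcr0, hV0⟩
    have h1 := ((hW1.inter hW2).preimage hc).mem_nhds h0
    obtain ⟨r, hr, hb⟩ := Metric.mem_nhds_iff.1 h1
    set δ : ℝ := min (r / 2) (1 / 2) with hδ
    have hδ0 : 0 < δ := lt_min (by positivity) (by norm_num)
    have hδ1 : δ ≤ r / 2 := min_le_left _ _
    have hδ2 : δ ≤ 1 / 2 := min_le_right _ _
    have h2 := hb (show δ ∈ Metric.ball 0 r by
      rw [Metric.mem_ball, Real.dist_eq, sub_zero, abs_of_pos hδ0]; linarith)
    refine ⟨_, h2, fun k => ?_⟩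
    have h3 := hz0.1 k
    have h4 := hz0.2 k
    simp only [Pi.zero_apply, Pi.one_apply] at h3 h4
    simp only [Pi.add_apply, Pi.smul_apply, Pi.sub_apply, smul_eq_mul]
    constructor <;> nlinarith
  -- almost every z
  have hae1 : ∀ᵐ z : Fin d → ℝ, ∀ n, (A n ∩ pr i j ⁻¹' {z}).Finite := by
    rw [ae_all_iff]
    exact fun n => ae_finite_fiber _ _ (pr i j) (pr_measure i j) (A n) (hA n)
  have hae2 : ∀ᵐ z : Fin d → ℝ, ∀ (a b : ℚ), 0 ≤ (a : ℝ) → (a : ℝ) < b → (b : ℝ) ≤ 1 →
      z ∉ bad f i j a b := by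
    simp only [eventually_countable_forall]
    intro a b ha hab hb
    rw [ae_iff]
    simpa using hbad i j a b ha hab hb
  obtain ⟨z, hzW, hz1, hz2⟩ : ∃ z ∈ W, (∀ n, (A n ∩ pr i j ⁻¹' {z}).Finite) ∧
      (∀ (a b : ℚ), 0 ≤ (a : ℝ) → (a : ℝ) < b → (b : ℝ) ≤ 1 → z ∉ bad f i j a b) := by
    by_contra hcon
    push Not at hcon
    have hpos := hWo.measure_pos volume hWne
    have h0 : volume W = 0 := by
      refine measure_mono_null ?_ (hae1.and hae2)
      intro z hz hcontra
      obtain ⟨a, b, h1, h2, h3, h4⟩ := hcon z hz hcontra.1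
      exact hcontra.2 a b h1 h2 h3 h4
    exact hpos.ne' h0
  have hzI : z ∈ Icc (0 : Fin d → ℝ) 1 := ⟨fun k => (hzW.2 k).1.le, fun k => (hzW.2 k).2.le⟩
  have hgc : Continuous fun τ => G f i j z τ :=
    (continuous_G i j).comp (continuous_const.prodMk (continuous_const.prodMk continuous_id))
  refine uncountable_level (fun τ => G f i j z τ) hgc (z i) s t hst hzW.1.1 ?_ ?_
  · intro p q hp hpq hq hc
    have h := hz2 p q (hs.trans hp) hpq (hq.trans ht)
    simp only [bad, mem_setOf_eq, not_and] at h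
    have h' := h hzI hc.le
    push Not at h'
    obtain ⟨t1, t2, t3, k1, k2, k3, k4, k5, k6, k7⟩ := h'
    exact ⟨t1, t2, t3, k1, k2, k3, k4, k5, k6, k7⟩
  · -- the fibre is countable
    have hcount : (graphOver f V ∩ pr i j ⁻¹' {z}).Countable := by
      have : graphOver f V ∩ pr i j ⁻¹' {z} ⊆ ⋃ n, (A n ∩ pr i j ⁻¹' {z}) := by
        rintro w ⟨hw1, hw2⟩
        obtain ⟨n, hn⟩ := mem_iUnion.1 (hsub hw1)
        exact mem_iUnion.2 ⟨n, hn, hw2⟩
      exact (countable_iUnion fun n => (hz1 n).countable).mono this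
    let Φ : ℝ → R2 d := fun τ => pt (cl (Function.update z i τ)) (f (cl (Function.update z i τ)))
    have hmaps : MapsTo Φ {τ ∈ Icc s t | G f i j z τ = z i} (graphOver f V ∩ pr i j ⁻¹' {z}) := by
      rintro τ ⟨hτ, hG⟩
      refine ⟨⟨cl (Function.update z i τ), hzW.1.2 τ hτ, rfl⟩, ?_⟩
      rw [mem_preimage, mem_singleton_iff]
      ext k
      by_cases hk : k = i
      · subst hk
        simp only [pr, if_true, Φ, pt]
        rw [cl_update]
        exact hG
      · simp only [pr, if_neg hk, Φ, pt]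
        show ((cl (Function.update z i τ) k : unitInterval) : ℝ) = z k
        rw [cl_update, Function.update_of_ne hk, cl,
          projIcc_of_mem _ (show z k ∈ Icc (0:ℝ) 1 from ⟨hzI.1 k, hzI.2 k⟩)]
    refine hmaps.countable_of_injOn ?_ hcount
    rintro τ ⟨hτ, -⟩ τ' ⟨hτ', -⟩ he
    have h1 : Φ τ (Sum.inl i) = Φ τ' (Sum.inl i) := by rw [he]
    have h2 : ∀ τ : ℝ, τ ∈ Icc s t → Φ τ (Sum.inl i) = τ := by
      intro τ hτ
      show ((cl (Function.update z i τ) i : unitInterval) : ℝ) = τ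
      rw [cl_update, Function.update_self, projIcc_of_mem _ ⟨hs.trans hτ.1, hτ.2.trans ht⟩]
    rw [h2 τ hτ, h2 τ' hτ'] at h1
    exact h1

/-- **Graphs of generic homeomorphisms of the cube (Q1).**  Let `d ≥ 2`.

(1) The set of the homeomorphisms `f` of `[0,1]^d` for which the graph of `f` is a countable union
of sets of finite `d`-dimensional Hausdorff measure is meagre.

(2) The set of the `f` for which this holds for the part of the graph over some nonempty relatively
open subset `V` of the cube is meagre, too. -/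
theorem result (d : ℕ) (hd : 2 ≤ d) :
    IsMeagre {f : HomeoCube d | ∃ A : ℕ → Set (R2 d), graphOver f.1 univ = ⋃ n, A n ∧
      ∀ n, Measure.hausdorffMeasure (d : ℝ) (A n) < ⊤} ∧
    IsMeagre {f : HomeoCube d | ∃ V : Set (Cube d), IsOpen V ∧ V.Nonempty ∧
      ∃ A : ℕ → Set (R2 d), graphOver f.1 V ⊆ ⋃ n, A n ∧
      ∀ n, Measure.hausdorffMeasure (d : ℝ) (A n) < ⊤} := by
  have h2 : IsMeagre {f : HomeoCube d | ∃ V : Set (Cube d), IsOpen V ∧ V.Nonempty ∧
      ∃ A : ℕ → Set (R2 d), graphOver f.1 V ⊆ ⋃ n, A n ∧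
      ∀ n, Measure.hausdorffMeasure (d : ℝ) (A n) < ⊤} := by
    rw [IsMeagre]
    filter_upwards [generic_bad hd] with f hf
    rintro ⟨V, hV, hne, A, hsub, hA⟩
    exact main (by omega) f.1 f.2.bijective.injective hf hV hne A hA hsub
  refine ⟨h2.mono ?_, h2⟩
  rintro f ⟨A, hA1, hA2⟩
  exact ⟨univ, isOpen_univ, ⟨fun _ => 0, trivial⟩, A, hA1.le, hA2⟩

end Pool.Agent.Results.MP_c4f89b_an.NonSigmaFinite
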